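import Pool.Agent.Helper61.NW.Goals

/-!
# Project NW: the star from crossings (abstract form)
-/

set_option autoImplicit false

namespace Pool.Agent.Helper54.NW

open Pool.Agent.Helper52.Wq2
open Pool.Agent.Helper61.NW

/-- A piece of the line `l`. -/
def sg {V : Type*} (f : ℕ → ℤ → V) (l : ℕ) (p p' : ℤ) : Set V :=
  {v | ∃ y, (p ≤ y ∧ y < p') ∧ f l y = v}

theorem sg_conn {V : Type*} {G : SimpleGraph V} {f : ℕ → ℤ → V} {l : ℕ}
    (hv : ∀ p, G.Adj (f l p) (f l (p + 1))) {p p' : ℤ} (h : p < p') : Conn G (sg f l p p') := by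
  refine conn_line (fun y : ℤ => f l y) (fun y => p ≤ y ∧ y < p') p ⟨le_refl _, h⟩ ?_ ?_
    (fun y _ _ => hv _)
  · rintro y hy ⟨h1, h2⟩
    exact ⟨hy, by omega⟩
  · rintro y hy ⟨h1, h2⟩
    exact ⟨by omega, by omega⟩

theorem star_of_cross {V : Type*} {G : SimpleGraph V} (q W : ℕ) (f : ℕ → ℤ → V)
    (hinj : ∀ l p l' p', l ≤ 2 * q → l' ≤ 2 * q → f l p = f l' p' → l = l' ∧ p = p')
    (hv : ∀ l p, l ≤ 2 * q → G.Adj (f l p) (f l (p + 1)))
    (hg : ∀ l, l < 2 * q → ∀ p : ℤ, ∃ u v : ℤ, p ≤ u ∧ u < p + W ∧ p ≤ v ∧ v < p + W ∧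
      G.Adj (f l u) (f (l + 1) v))
    (hx : ∀ i, i < q → ∀ p : ℤ, ∃ P : ℤ, p ≤ P ∧ P + 1 < p + W ∧
      G.Adj (f (2 * i + 1) P) (f (2 * i + 2) (P + 1)) ∧
      G.Adj (f (2 * i + 1) (P + 1)) (f (2 * i + 2) P)) (hW : 0 < W) :
    Mn (StarZ (Fin q)) G := by
  obtain ⟨T, hT⟩ : ∃ T : ℤ, T = (2 * q + 2) * W := ⟨_, rfl⟩
  have hW' : (0 : ℤ) < W := by exact_mod_cast hW
  have hx' : ∀ (x : ℤ) (i : ℕ), ∃ P : ℤ, i < q → x * T + (2 * i + 1) * W ≤ P ∧
      P + 1 < x * T + (2 * i + 1) * W + W ∧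
      G.Adj (f (2 * i + 1) P) (f (2 * i + 2) (P + 1)) ∧
      G.Adj (f (2 * i + 1) (P + 1)) (f (2 * i + 2) P) := by
    intro x i
    by_cases hi : i < q
    · obtain ⟨P, hP⟩ := hx i hi (x * T + (2 * i + 1) * W)
      exact ⟨P, fun _ => hP⟩
    · exact ⟨0, fun h => absurd h hi⟩
  choose P hP using hx'
  -- bounds
  have hPlo : ∀ x i, i < q → x * T + W ≤ P x i := by
    intro x i hi
    have h1 := (hP x i hi).1
    have h2 : 0 ≤ (i : ℤ) * W := by positivity
    have e : (2 * (i : ℤ) + 1) * W = 2 * (i * W) + W := by ring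
    omega
  have hPhi : ∀ x i, i < q → P x i + 1 < x * T + 2 * (q * W) := by
    intro x i hi
    have h1 := (hP x i hi).2.1
    have h2 : ((i : ℤ) + 1) * W ≤ q * W := by
      have : ((i : ℤ) + 1) ≤ q := by exact_mod_cast hi
      exact mul_le_mul_of_nonneg_right this hW'.le
    have e : (2 * (i : ℤ) + 1) * W + W = 2 * ((i + 1) * W) := by ring
    omega
  have hPst : ∀ x i, i + 1 < q → P x i + 1 + W ≤ P x (i + 1) := by
    intro x i hi
    have h1 := (hP x i (by omega)).2.1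
    have h2 := (hP x (i + 1) hi).1
    push_cast at h2
    have e : (2 * ((i : ℤ) + 1) + 1) * W = (2 * (i : ℤ) + 1) * W + W + W := by ring
    omega
  have hTe : T = 2 * (q * W) + 2 * W := by rw [hT]; ring
  have hqW : 0 ≤ (q : ℤ) * W := by positivity
  let B : ℤ → ℤ := fun x => x * T + 2 * (q * W) + W
  let E : ℤ → ℤ := fun x => x * T + T
  have hBE : ∀ x, E x = B x + W := by
    intro x
    show x * T + T = x * T + 2 * (q * W) + W + W
    omega
  let R : ℤ → ℕ → Set V := fun x k =>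
    sg f (2 * k + 1) (x * T) (P x k + 1) ∪ sg f (2 * k + 2) (P x k + 1) (B x)
  let A : ℤ → ℕ → Set V := fun x k => if k = 0 then sg f 0 (x * T) (E x) else R x (k - 1)
  let φ : ℤ × Option (Fin q) → Set V := fun v => match v.2 with
    | none => {u | ∃ k, k ≤ q ∧ u ∈ A v.1 k}
    | some i => (sg f (2 * i + 2) (v.1 * T) (P v.1 i + 1) ∪ sg f (2 * i + 1) (P v.1 i + 1) (E v.1)) ∪
        sg f (2 * i + 2) (B v.1) (E v.1)
  have hR : ∀ x k, k < q → Conn G (R x k) := by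
    intro x k hk
    have h1 := hPlo x k hk
    have h2 := hPhi x k hk
    obtain ⟨-, -, h3, h4⟩ := hP x k hk
    refine Conn.union (sg_conn (fun p => hv _ _ (by omega)) (by omega))
      (sg_conn (fun p => hv _ _ (by omega)) ?_) (a := f (2 * k + 1) (P x k))
      (b := f (2 * k + 2) (P x k + 1)) ⟨P x k, ⟨by omega, by omega⟩, rfl⟩
      ⟨P x k + 1, ⟨le_refl _, ?_⟩, rfl⟩ h3
    · show P x k + 1 < x * T + 2 * (q * W) + W
      omega
    · show P x k + 1 < x * T + 2 * (q * W) + W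
      omega
  have hcen : ∀ x, Conn G {u | ∃ k, k ≤ q ∧ u ∈ A x k} := by
    intro x
    refine conn_chain (A x) q ?_ ?_
    · intro k hk
      rcases Nat.eq_zero_or_pos k with rfl | hk0
      · show Conn G (if 0 = 0 then sg f 0 (x * T) (E x) else R x (0 - 1))
        rw [if_pos rfl]
        refine sg_conn (fun p => hv _ _ (by omega)) ?_
        show x * T < x * T + T
        omega
      · show Conn G (if k = 0 then sg f 0 (x * T) (E x) else R x (k - 1))
        rw [if_neg (by omega)]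
        exact hR x (k - 1) (by omega)
    · intro k hk
      rcases Nat.eq_zero_or_pos k with rfl | hk0
      · obtain ⟨u, v, h1, h2, h3, h4, h5⟩ := hg 0 (by omega) (x * T)
        have h6 := hPlo x 0 hk
        refine ⟨f 0 u, ?_, f 1 v, ?_, h5⟩
        · show f 0 u ∈ (if 0 = 0 then sg f 0 (x * T) (E x) else R x (0 - 1))
          rw [if_pos rfl]
          refine ⟨u, ⟨h1, ?_⟩, rfl⟩
          show u < x * T + T
          omega
        · show f 1 v ∈ (if 0 + 1 = 0 then sg f 0 (x * T) (E x) else R x (0 + 1 - 1))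
          rw [if_neg (by omega), Nat.add_sub_cancel]
          exact Or.inl ⟨v, ⟨h3, by omega⟩, rfl⟩
      · obtain ⟨c, rfl⟩ : ∃ c, k = c + 1 := ⟨k - 1, by omega⟩
        obtain ⟨u, v, h1, h2, h3, h4, h5⟩ := hg (2 * c + 2) (by omega) (P x c + 1)
        have h6 := hPst x c hk
        have h7 := hPlo x c (by omega)
        have h8 := hPhi x (c + 1) hk
        refine ⟨f (2 * c + 2) u, ?_, f (2 * c + 2 + 1) v, ?_, h5⟩
        · show f (2 * c + 2) u ∈ (if c + 1 = 0 then sg f 0 (x * T) (E x) else R x (c + 1 - 1))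
          rw [if_neg (by omega), Nat.add_sub_cancel]
          refine Or.inr ⟨u, ⟨h1, ?_⟩, rfl⟩
          show u < x * T + 2 * (q * W) + W
          omega
        · show f (2 * c + 2 + 1) v ∈
            (if c + 1 + 1 = 0 then sg f 0 (x * T) (E x) else R x (c + 1 + 1 - 1))
          rw [if_neg (by omega), Nat.add_sub_cancel]
          exact Or.inl ⟨v, ⟨by omega, by omega⟩, rfl⟩
  have hcm : ∀ (x : ℤ) (v : V), v ∈ {u | ∃ k, k ≤ q ∧ u ∈ A x k} → ∃ (l : ℕ) (y : ℤ), f l y = v ∧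
      l ≤ 2 * q ∧ x * T ≤ y ∧ y < x * T + T ∧ (l = 0 ∨ ∃ k, k < q ∧ ((l = 2 * k + 1 ∧ y ≤ P x k) ∨
        (l = 2 * k + 2 ∧ P x k < y ∧ y < B x))) := by
    rintro x v ⟨k, hk, hv⟩
    rcases Nat.eq_zero_or_pos k with rfl | hk0
    · change v ∈ (if 0 = 0 then sg f 0 (x * T) (E x) else R x (0 - 1)) at hv
      rw [if_pos rfl] at hv
      obtain ⟨y, ⟨h1, h2⟩, rfl⟩ := hv
      exact ⟨0, y, rfl, by omega, h1, h2, Or.inl rfl⟩
    · obtain ⟨c, rfl⟩ : ∃ c, k = c + 1 := ⟨k - 1, by omega⟩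
      change v ∈ (if c + 1 = 0 then sg f 0 (x * T) (E x) else R x (c + 1 - 1)) at hv
      rw [if_neg (by omega), Nat.add_sub_cancel] at hv
      have h6 := hPlo x c (by omega)
      have h7 := hPhi x c (by omega)
      rcases hv with ⟨y, ⟨h1, h2⟩, rfl⟩ | ⟨y, ⟨h1, h2⟩, rfl⟩
      · exact ⟨2 * c + 1, y, rfl, by omega, h1, by omega,
          Or.inr ⟨c, by omega, Or.inl ⟨rfl, by omega⟩⟩⟩
      · have h8 : y < x * T + 2 * (q * W) + W := h2
        exact ⟨2 * c + 2, y, rfl, by omega, by omega, by omega,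
          Or.inr ⟨c, by omega, Or.inr ⟨rfl, by omega, h2⟩⟩⟩
  have hlm : ∀ (x : ℤ) (i : Fin q) (v : V), v ∈ φ (x, some i) → ∃ (l : ℕ) (y : ℤ), f l y = v ∧
      l ≤ 2 * q ∧ x * T ≤ y ∧ y < x * T + T ∧ ((l = 2 * i + 2 ∧ y ≤ P x i) ∨
        (l = 2 * i + 1 ∧ P x i < y) ∨ (l = 2 * i + 2 ∧ B x ≤ y)) := by
    intro x i v hv
    have hi := i.2
    have h6 := hPlo x i hi
    have h7 := hPhi x i hi
    have h8 := hBE x
    rcases hv with (⟨y, ⟨h1, h2⟩, rfl⟩ | ⟨y, ⟨h1, h2⟩, rfl⟩) | ⟨y, ⟨h1, h2⟩, rfl⟩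
    · simp only at h1 h2
      exact ⟨2 * i + 2, y, rfl, by omega, h1, by omega, Or.inl ⟨rfl, by omega⟩⟩
    · simp only at h1 h2
      exact ⟨2 * i + 1, y, rfl, by omega, by omega, h2, Or.inr (Or.inl ⟨rfl, by omega⟩)⟩
    · have h9 : x * T + 2 * (q * W) + W ≤ y := h1
      exact ⟨2 * i + 2, y, rfl, by omega, by omega, h2, Or.inr (Or.inr ⟨rfl, h1⟩)⟩
  have hslab : ∀ x x' y : ℤ, x * T ≤ y → y < x * T + T → x' * T ≤ y → y < x' * T + T → x = x' := by
    intro x x' y h1 h2 h3 h4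
    have hTpos : 0 < T := by omega
    have g1 : x * T < (x' + 1) * T := by rw [add_mul, one_mul]; omega
    have g2 : x' * T < (x + 1) * T := by rw [add_mul, one_mul]; omega
    have g3 := lt_of_mul_lt_mul_right g1 hTpos.le
    have g4 := lt_of_mul_lt_mul_right g2 hTpos.le
    omega
  have hcl : ∀ (x x' : ℤ) (i : Fin q) (v : V), v ∈ φ (x, none) → v ∈ φ (x', some i) → False := by
    intro x x' i v h1 h2
    obtain ⟨l, y, rfl, a1, a2, a3, a4⟩ := hcm x v h1
    obtain ⟨l', y', he, b1, b2, b3, b4⟩ := hlm x' i _ h2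
    obtain ⟨e1, e2⟩ := hinj _ _ _ _ b1 a1 he
    subst e1 e2
    have := hslab _ _ _ a2 a3 b2 b3
    subst this
    rcases a4 with a4 | ⟨k, hk, ⟨a4, a5⟩ | ⟨a4, a5, a6⟩⟩
    · omega
    · rcases b4 with ⟨c1, c2⟩ | ⟨c1, c2⟩ | ⟨c1, c2⟩
      · omega
      · have : k = i := by omega
        subst this
        omega
      · omega
    · rcases b4 with ⟨c1, c2⟩ | ⟨c1, c2⟩ | ⟨c1, c2⟩
      · have : k = i := by omega
        subst this
        omega
      · omega
      · omega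
  refine ⟨φ, ?_, ?_, ?_⟩
  · rintro ⟨x, _ | i⟩
    · exact hcen x
    · have hi := i.2
      have h6 := hPlo x i hi
      have h7 := hPhi x i hi
      have h8 := hBE x
      have h9 : B x = x * T + 2 * (q * W) + W := rfl
      obtain ⟨-, -, h3, h4⟩ := hP x i hi
      obtain ⟨u, v, g1, g2, g3, g4, g5⟩ := hg (2 * i + 1) (by omega) (B x)
      show Conn G ((sg f (2 * i + 2) (x * T) (P x i + 1) ∪ sg f (2 * i + 1) (P x i + 1) (E x)) ∪
        sg f (2 * i + 2) (B x) (E x))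
      refine Conn.union (Conn.union (sg_conn (fun p => hv _ _ (by omega)) (by omega))
        (sg_conn (fun p => hv _ _ (by omega)) (by omega)) (a := f (2 * i + 2) (P x i))
        (b := f (2 * i + 1) (P x i + 1)) ⟨P x i, ⟨by omega, by omega⟩, rfl⟩
        ⟨P x i + 1, ⟨le_refl _, by omega⟩, rfl⟩ h4.symm)
        (sg_conn (fun p => hv _ _ (by omega)) (by omega)) (a := f (2 * i + 1) u)
        (b := f (2 * i + 1 + 1) v) (Or.inr ⟨u, ⟨by omega, by omega⟩, rfl⟩)
        ⟨v, ⟨by omega, by omega⟩, rfl⟩ g5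
  · rintro ⟨x, _ | i⟩ ⟨x', _ | j⟩ v h1 h2
    · obtain ⟨l, y, rfl, a1, a2, a3, -⟩ := hcm x v h1
      obtain ⟨l', y', he, b1, b2, b3, -⟩ := hcm x' _ h2
      obtain ⟨e1, e2⟩ := hinj _ _ _ _ b1 a1 he
      subst e1 e2
      rw [hslab _ _ _ a2 a3 b2 b3]
    · exact (hcl x x' j v h1 h2).elim
    · exact (hcl x' x i v h2 h1).elim
    · obtain ⟨l, y, rfl, a1, a2, a3, a4⟩ := hlm x i v h1
      obtain ⟨l', y', he, b1, b2, b3, b4⟩ := hlm x' j _ h2
      obtain ⟨e1, e2⟩ := hinj _ _ _ _ b1 a1 he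
      subst e1 e2
      have e3 := hslab _ _ _ a2 a3 b2 b3
      have e4 : i = j := Fin.ext (by omega)
      rw [e3, e4]
  · have ln : ∀ (x : ℤ) (o : Option (Fin q)), ∃ a ∈ φ (x, o), ∃ b ∈ φ (x + 1, o), G.Adj a b := by
      rintro x (_ | i)
      · have h5 : E x = x * T + T := rfl
        refine ⟨f 0 (E x - 1), ⟨0, Nat.zero_le _, ?_⟩, f 0 (E x - 1 + 1), ⟨0, Nat.zero_le _, ?_⟩,
          hv _ _ (by omega)⟩
        · show f 0 (E x - 1) ∈ (if 0 = 0 then sg f 0 (x * T) (E x) else R x (0 - 1))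
          rw [if_pos rfl]
          exact ⟨_, ⟨by omega, by omega⟩, rfl⟩
        · show f 0 (E x - 1 + 1) ∈
            (if 0 = 0 then sg f 0 ((x + 1) * T) (E (x + 1)) else R (x + 1) (0 - 1))
          rw [if_pos rfl]
          have h6 : E (x + 1) = (x + 1) * T + T := rfl
          refine ⟨_, ⟨?_, ?_⟩, rfl⟩
          · rw [h5, add_mul, one_mul]; omega
          · rw [h6, h5, add_mul, one_mul]; omega
      · have h5 : E x = x * T + T := rfl
        have h8 := hBE x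
        have h9 := hPlo (x + 1) i i.2
        have h10 : (x + 1) * T = x * T + T := by ring
        have hi := i.2
        refine ⟨f (2 * i + 2) (E x - 1), Or.inr ⟨_, ⟨?_, ?_⟩, rfl⟩,
          f (2 * i + 2) (E x - 1 + 1), Or.inl (Or.inl ⟨_, ⟨?_, ?_⟩, rfl⟩),
          hv _ _ (by omega)⟩
        · show B x ≤ E x - 1
          omega
        · show E x - 1 < E x
          omega
        · show (x + 1) * T ≤ E x - 1 + 1
          omega
        · show E x - 1 + 1 < P (x + 1) i + 1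
          omega
    have sp : ∀ (x : ℤ) (i : Fin q), ∃ a ∈ φ (x, none), ∃ b ∈ φ (x, some i), G.Adj a b := by
      intro x i
      have hi := i.2
      have h6 := hPlo x i hi
      have h7 := hPhi x i hi
      refine ⟨f (2 * i + 1) (P x i), ⟨i + 1, by omega, ?_⟩, f (2 * i + 1) (P x i + 1),
        Or.inl (Or.inr ⟨_, ⟨le_refl _, ?_⟩, rfl⟩), hv _ _ (by omega)⟩
      · show f (2 * i + 1) (P x i) ∈
          (if (i : ℕ) + 1 = 0 then sg f 0 (x * T) (E x) else R x ((i : ℕ) + 1 - 1))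
        rw [if_neg (by omega), Nat.add_sub_cancel]
        exact Or.inl ⟨_, ⟨by omega, by omega⟩, rfl⟩
      · show P x i + 1 < x * T + T
        omega
    rintro ⟨x, o⟩ ⟨x', o'⟩ hadj
    unfold StarZ at hadj
    rw [SimpleGraph.fromRel_adj] at hadj
    obtain ⟨hne, (⟨h1, h2⟩ | ⟨h1, h2⟩) | (⟨h1, h2⟩ | ⟨h1, h2⟩)⟩ := hadj
    · simp only at h1 h2
      subst h1 h2
      exact ln x o
    · simp only at h1 h2
      subst h1 h2
      rcases o' with _ | i
      · exact absurd rfl hne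
      · exact sp x i
    · simp only at h1 h2
      subst h1 h2
      obtain ⟨a, ha, b, hb, hab⟩ := ln x' o'
      exact ⟨b, hb, a, ha, hab.symm⟩
    · simp only at h1 h2
      subst h1 h2
      rcases o with _ | i
      · exact absurd rfl hne
      · obtain ⟨a, ha, b, hb, hab⟩ := sp x' i
        exact ⟨b, hb, a, ha, hab.symm⟩

end Pool.Agent.Helper54.NW
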