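import Pool.Agent.Helper77.NW.STL
import Pool.Agent.Helper7.NW.TTW
import Pool.Agent.Helper54.NW.XS

/-!
# Project NW, packet CRX: stars from crossings
-/

set_option autoImplicit false

namespace Pool.Agent.Helper54.NW

open Pool.Agent.Helper52.Wq2
open Pool.Agent.Helper61.NW
open Pool.Agent.Helper77.NW (pos pos_mul_zpow adj_mul line_zpow edge exists_pos)
open Pool.Agent.Helper7.NW (ln_smul)

universe u

variable {Γ : Type u} [Group Γ] {S : Set Γ} {h : Γ → ℤ} {s : Γ} {H n m : ℕ}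

/-- A crossing between the lines `A` and `B`. -/
def CP (S : Set Γ) (h : Γ → ℤ) (s : Γ) (H : ℕ) (A B : Γ ⧸ Subgroup.zpowers s) : Prop :=
  ∃ a b : Γ, (a : Γ ⧸ Subgroup.zpowers s) = A ∧ (b : Γ ⧸ Subgroup.zpowers s) = B ∧
    h b = h a + H ∧ a⁻¹ * b ∈ S ∧ (a * s)⁻¹ * (b * s⁻¹) ∈ S

theorem uniq (T : Two S h s H n m) {a b : Γ}
    (h1 : (a : Γ ⧸ Subgroup.zpowers s) = (b : Γ ⧸ Subgroup.zpowers s))
    (h2 : pos h H a = pos h H b) : a = b := by
  rw [QuotientGroup.eq, Subgroup.mem_zpowers_iff] at h1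
  obtain ⟨k, hk⟩ := h1
  have hb : b = a * s ^ k := by rw [hk, mul_inv_cancel_left]
  rw [hb, pos_mul_zpow T] at h2
  have : k = 0 := by omega
  rw [hb, this, zpow_zero, mul_one]

theorem cp_smul (T : Two S h s H n m) (x : Γ) {A B : Γ ⧸ Subgroup.zpowers s}
    (hc : CP S h s H A B) : CP S h s H (x • A) (x • B) := by
  obtain ⟨a, b, rfl, rfl, h3, h4, h5⟩ := hc
  refine ⟨x * a, x * b, rfl, rfl, ?_, ?_, ?_⟩
  · rw [T.hom, T.hom, h3]; ring
  · have : (x * a)⁻¹ * (x * b) = a⁻¹ * b := by group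
    rw [this]; exact h4
  · have : (x * a * s)⁻¹ * (x * b * s⁻¹) = (a * s)⁻¹ * (b * s⁻¹) := by group
    rw [this]; exact h5

theorem cp_symm (T : Two S h s H n m) {A B : Γ ⧸ Subgroup.zpowers s}
    (hc : CP S h s H A B) : CP S h s H B A := by
  obtain ⟨a, b, rfl, rfl, h3, h4, h5⟩ := hc
  refine ⟨b * s⁻¹, a * s, ?_, ?_, ?_, ?_, ?_⟩
  · have := line_zpow (s := s) b (-1)
    rwa [zpow_neg_one] at this
  · have := line_zpow (s := s) a 1
    rwa [zpow_one] at this
  · have e1 : h (b * s⁻¹) + H = h b := by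
      have := T.hom (b * s⁻¹) s
      rw [inv_mul_cancel_right, T.Hs] at this
      exact this.symm
    rw [T.hom a s, T.Hs]
    omega
  · have : (b * s⁻¹)⁻¹ * (a * s) = ((a * s)⁻¹ * (b * s⁻¹))⁻¹ := by group
    rw [this]
    exact T.gen.2.1 _ h5
  · have : (b * s⁻¹ * s)⁻¹ * (a * s * s⁻¹) = (a⁻¹ * b)⁻¹ := by group
    rw [this]
    exact T.gen.2.1 _ h4

/-- Crossings at all heights. -/
theorem cp_high (T : Two S h s H n m) {A B : Γ ⧸ Subgroup.zpowers s}
    (hc : CP S h s H A B) (p : ℤ) : ∃ a b : Γ, (a : Γ ⧸ Subgroup.zpowers s) = A ∧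
    (b : Γ ⧸ Subgroup.zpowers s) = B ∧ h b = h a + H ∧ a⁻¹ * b ∈ S ∧
    (a * s)⁻¹ * (b * s⁻¹) ∈ S ∧ p ≤ pos h H a ∧ pos h H a < p + m := by
  obtain ⟨a, b, rfl, rfl, h3, h4, h5⟩ := hc
  have hm : (0 : ℤ) < m := by
    have := T.mpos
    omega
  obtain ⟨k, hk⟩ : ∃ k : ℤ, k = -((pos h H a - p) / m) := ⟨_, rfl⟩
  have hd := Int.emod_add_mul_ediv (pos h H a - p) m
  have hr0 := Int.emod_nonneg (pos h H a - p) hm.ne'
  have hr1 := Int.emod_lt_of_pos (pos h H a - p) hm
  have hmk : pos h H a - p + m * k = (pos h H a - p) % m := by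
    rw [hk]
    linarith [hd, mul_neg (m : ℤ) ((pos h H a - p) / m)]
  obtain ⟨z, hz⟩ : ∃ z : Γ, z = s ^ ((m : ℤ) * k) := ⟨_, rfl⟩
  have hcz : ∀ g, g * z = z * g := by
    intro g
    rw [hz, zpow_mul, zpow_natCast]
    exact (Commute.zpow_right (T.cen g) k).eq
  have hq : ∀ a b : Γ, (a * z)⁻¹ * (b * z) = a⁻¹ * b := by
    intro a b
    rw [mul_inv_rev, mul_assoc, ← mul_assoc a⁻¹, hcz (a⁻¹ * b), inv_mul_cancel_left]
  have hcs : ∀ a g : Γ, a * z * g = a * g * z := by
    intro a g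
    rw [mul_assoc, ← hcz g, ← mul_assoc]
  refine ⟨a * z, b * z, ?_, ?_, ?_, ?_, ?_, ?_, ?_⟩
  · rw [hz]; exact line_zpow _ _
  · rw [hz]; exact line_zpow _ _
  · rw [T.hom, T.hom, h3]; ring
  · rw [hq]; exact h4
  · rw [hcs, hcs, hq]; exact h5
  · rw [hz, pos_mul_zpow T]; omega
  · rw [hz, pos_mul_zpow T]; omega

/-- Crossings in every second gap. -/
theorem cp_step (T : Two S h s H n m) (hn : 3 ≤ n) (e : (Γ ⧸ Subgroup.zpowers s) ≃ ZMod n)
    (he : IsCyc S s n e) (j : ZMod n) (hc : CP S h s H (e.symm j) (e.symm (j + 1))) :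
    CP S h s H (e.symm (j + 2)) (e.symm (j + 3)) := by
  have ha : ∀ i : ZMod n, (Ln S s).Adj (e.symm i) (e.symm (i + 1)) := by
    intro i
    rw [he]
    left
    rw [Equiv.apply_symm_apply, Equiv.apply_symm_apply]
  have hnb : ∀ (i : ZMod n) (C : Γ ⧸ Subgroup.zpowers s), (Ln S s).Adj C (e.symm i) →
      C = e.symm (i + 1) ∨ C = e.symm (i - 1) := by
    intro i C hC
    rw [he, Equiv.apply_symm_apply] at hC
    rcases hC with hC | hC
    · right
      rw [hC, add_sub_cancel_right, Equiv.symm_apply_apply]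
    · left
      rw [← hC, Equiv.symm_apply_apply]
  have hx : ∃ x : Γ, x • (e.symm (j + 1)) = e.symm (j + 2) := by
    obtain ⟨a, ha⟩ := QuotientGroup.mk_surjective (e.symm (j + 1))
    obtain ⟨b, hb⟩ := QuotientGroup.mk_surjective (e.symm (j + 2))
    refine ⟨b * a⁻¹, ?_⟩
    rw [← ha, ← hb]
    change (b * a⁻¹) • ((a : Γ) : Γ ⧸ Subgroup.zpowers s) = (b : Γ ⧸ Subgroup.zpowers s)
    rw [MulAction.Quotient.smul_coe, smul_eq_mul, inv_mul_cancel_right]
  obtain ⟨x, hx⟩ := hx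
  have e3 : j + 2 + 1 = j + 3 := by ring
  have e1 : j + 2 - 1 = j + 1 := by ring
  have h01 := ln_smul x _ _ (ha j)
  rw [hx] at h01
  have hc1 := cp_smul T x hc
  rw [hx] at hc1
  rcases hnb _ _ h01 with h0 | h0
  · rw [h0, e3] at hc1
    exact cp_symm T hc1
  · rw [e1] at h0
    rw [h0] at hc1
    have h21 := ln_smul x _ _ (ha (j + 1)).symm
    have e2 : j + 1 + 1 = j + 2 := by ring
    rw [e2, hx] at h21
    have hc2 := cp_smul T x hc1
    rw [hx] at hc2
    rcases hnb _ _ h21 with h2 | h2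
    · rw [h2, e3] at hc2
      exact hc2
    · exfalso
      rw [e1, ← h0] at h2
      have h3 := MulAction.injective x h2
      have h4 := e.symm.injective h3
      have h5 : ((2 : ℕ) : ZMod n) = 0 := by
        have : j + 2 = j + 0 := by rw [add_zero]; exact h4
        have := add_left_cancel this
        exact_mod_cast this
      rw [ZMod.natCast_eq_zero_iff] at h5
      have := Nat.le_of_dvd (by omega) h5
      omega

theorem crx : CrxStmt.{u} := by
  intro Γ _ S h s H n m T hn e he ⟨j₀, hj₀⟩ q hq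
  have hcp : ∀ i : ℕ, CP S h s H (e.symm (j₀ + 2 * i)) (e.symm (j₀ + 2 * i + 1)) := by
    intro i
    induction i with
    | zero =>
      obtain ⟨a, b, h1, h2, h3, h4, h5⟩ := hj₀
      refine ⟨a, b, ?_, ?_, h3, h4, h5⟩
      · rw [Nat.cast_zero, mul_zero, add_zero, ← h1, Equiv.symm_apply_apply]
      · rw [Nat.cast_zero, mul_zero, add_zero, ← h2, Equiv.symm_apply_apply]
    | succ i ih =>
      have := cp_step T hn e he _ ih
      have e1 : j₀ + 2 * (i : ZMod n) + 2 = j₀ + 2 * ((i + 1 : ℕ) : ZMod n) := by push_cast; ring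
      have e2 : j₀ + 2 * (i : ZMod n) + 3 = j₀ + 2 * ((i + 1 : ℕ) : ZMod n) + 1 := by
        push_cast; ring
      rw [e1, e2] at this
      exact this
  obtain ⟨L, hL⟩ : ∃ L : ℕ → Γ ⧸ Subgroup.zpowers s, ∀ l, L l = e.symm (j₀ - 1 + l) :=
    ⟨fun l => e.symm (j₀ - 1 + l), fun _ => rfl⟩
  choose f hf1 hf2 using fun (l : ℕ) (p : ℤ) => exists_pos T (L l) p
  have hfe : ∀ (l : ℕ) (p : ℤ) (g : Γ), (g : Γ ⧸ Subgroup.zpowers s) = L l → pos h H g = p →
      f l p = g := by
    intro l p g h1 h2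
    exact uniq T ((hf1 l p).trans h1.symm) ((hf2 l p).trans h2.symm)
  have hH : (H : ℤ) ≠ 0 := by
    have := T.Hpos
    omega
  refine star_of_cross q (m + 2) f ?_ ?_ ?_ ?_ (by omega)
  · intro l p l' p' hl hl' hff
    refine ⟨?_, ?_⟩
    · have h1 : L l = L l' := by rw [← hf1 l p, ← hf1 l' p', hff]
      rw [hL, hL] at h1
      have h2 := add_left_cancel (e.symm.injective h1)
      have h3 := congrArg ZMod.val h2
      rwa [ZMod.val_natCast_of_lt (by omega), ZMod.val_natCast_of_lt (by omega)] at h3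
    · rw [← hf2 l p, ← hf2 l' p', hff]
  · intro l p hl
    have h1 : f l (p + 1) = f l p * s := by
      refine hfe _ _ _ ?_ ?_
      · have := line_zpow (s := s) (f l p) 1
        rw [zpow_one] at this
        rw [this, hf1]
      · have := pos_mul_zpow T (f l p) 1
        rw [zpow_one] at this
        rw [this, hf2]
    rw [h1]
    exact adj_mul T _ _ T.hs
  · intro l hl p
    have h1 : (Ln S s).Adj (L l) (L (l + 1)) := by
      rw [he]
      left
      rw [hL, hL, Equiv.apply_symm_apply, Equiv.apply_symm_apply]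
      push_cast
      ring
    obtain ⟨a, b, h2, h3, h4, ⟨h5, h6⟩, h7, h8⟩ := edge T _ _ h1 p
    refine ⟨pos h H a, pos h H b, h5, by push_cast; omega, h7, by push_cast; omega, ?_⟩
    rw [hfe l _ a h2 rfl, hfe (l + 1) _ b h3 rfl]
    exact h4
  · intro i hi p
    obtain ⟨a, b, h1, h2, h3, h4, h5, h6, h7⟩ := cp_high T (hcp i) p
    have g1 : e.symm (j₀ + 2 * (i : ZMod n)) = L (2 * i + 1) := by
      rw [hL]
      congr 1
      push_cast
      ring
    have g2 : e.symm (j₀ + 2 * (i : ZMod n) + 1) = L (2 * i + 2) := by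
      rw [hL]
      congr 1
      push_cast
      ring
    rw [g1] at h1
    rw [g2] at h2
    have hpb : pos h H b = pos h H a + 1 := by
      show h b / H = h a / H + 1
      rw [h3]
      have := Int.add_mul_ediv_right (h a) 1 hH
      rwa [one_mul] at this
    have hla : ((a * s : Γ) : Γ ⧸ Subgroup.zpowers s) = L (2 * i + 1) := by
      have := line_zpow (s := s) a 1
      rw [zpow_one] at this
      rw [this, h1]
    have hlb : ((b * s⁻¹ : Γ) : Γ ⧸ Subgroup.zpowers s) = L (2 * i + 2) := by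
      have := line_zpow (s := s) b (-1)
      rw [zpow_neg_one] at this
      rw [this, h2]
    have hpa' : pos h H (a * s) = pos h H a + 1 := by
      have := pos_mul_zpow T a 1
      rwa [zpow_one] at this
    have hpb' : pos h H (b * s⁻¹) = pos h H a := by
      have := pos_mul_zpow T b (-1)
      rw [zpow_neg_one] at this
      rw [this, hpb]
      ring
    refine ⟨pos h H a, h6, by push_cast; omega, ?_, ?_⟩
    · rw [hfe _ _ a h1 rfl, hfe _ _ b h2 hpb]
      have := adj_mul T a _ h4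
      rwa [mul_inv_cancel_left] at this
    · rw [hfe _ _ (a * s) hla hpa', hfe _ _ (b * s⁻¹) hlb hpb']
      have := adj_mul T (a * s) _ h5
      rwa [mul_inv_cancel_left] at this

end Pool.Agent.Helper54.NW
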