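import Pool.Agent.Helper61.NW.Goals

/-!
# Project NW, packet CYL: cylinders without crossings
-/

set_option autoImplicit false

namespace Pool.Agent.Helper54.NW

open Pool.Agent.Helper52.Wq2
open Pool.Agent.Helper61.NW

/-- A connected set with connected sets attached. -/
theorem conn_star {V ι : Type*} {G : SimpleGraph V} {s : Set V} (P : ι → Prop) (T : ι → Set V)
    (hs : Conn G s) (hT : ∀ i, P i → Conn G (T i))
    (ha : ∀ i, P i → ∃ a ∈ s, ∃ b ∈ T i, G.Adj a b) :
    Conn G {v | v ∈ s ∨ ∃ i, P i ∧ v ∈ T i} := by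
  refine ⟨?_, ?_⟩
  · obtain ⟨a, ha⟩ := hs.1
    exact ⟨a, Or.inl ha⟩
  · intro A hA hne hcl
    have h1 : (∃ a ∈ A, a ∈ s) → s ⊆ A := by
      rintro ⟨a, haA, has⟩ x hx
      exact (hs.2 (A ∩ s) Set.inter_subset_right ⟨a, haA, has⟩
        (fun u hu v hv huv => ⟨hcl u hu.1 v (Or.inl hv) huv, hv⟩) hx).1
    have h2 : ∀ i, P i → (∃ a ∈ A, a ∈ T i) → T i ⊆ A := by
      rintro i hi ⟨a, haA, has⟩ x hx
      exact ((hT i hi).2 (A ∩ T i) Set.inter_subset_right ⟨a, haA, has⟩
        (fun u hu v hv huv => ⟨hcl u hu.1 v (Or.inr ⟨i, hi, hv⟩) huv, hv⟩) hx).1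
    have h3 : s ⊆ A := by
      obtain ⟨a, haA⟩ := hne
      rcases hA haA with has | ⟨i, hi, hai⟩
      · exact h1 ⟨a, haA, has⟩
      · obtain ⟨u, hu, v, hv, huv⟩ := ha i hi
        have hvA := h2 i hi ⟨a, haA, hai⟩ hv
        exact h1 ⟨u, hcl v hvA u (Or.inl hu) huv.symm, hu⟩
    rintro x (hx | ⟨i, hi, hx⟩)
    · exact h3 hx
    · obtain ⟨u, hu, v, hv, huv⟩ := ha i hi
      exact h2 i hi ⟨v, hcl u (h3 hu) v (Or.inr ⟨i, hi, hv⟩) huv, hv⟩ hx

/-- The row of a route after `x` steps: from `α` to `β` with slope at most one. -/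
def rt (α β : ℤ) (x : ℕ) : ℤ := max (α - x) (min (α + x) β)

/-- The cells of a route in column `x + 1`. -/
def rc (α β : ℤ) (x : ℕ) (y : ℤ) : Prop :=
  min (rt α β x) (rt α β (x + 1)) ≤ y ∧ y ≤ max (rt α β x) (rt α β (x + 1))

theorem rt_zero (α β : ℤ) : rt α β 0 = α := by
  unfold rt
  push_cast
  omega

theorem rt_end (α β : ℤ) (x : ℕ) (h1 : α - x ≤ β) (h2 : β ≤ α + x) : rt α β x = β := by
  unfold rt
  omega

theorem rc_disj {α β α' β' y : ℤ} {x : ℕ} (h1 : α + 3 ≤ α') (h2 : β + 3 ≤ β')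
    (h : rc α β x y) (h' : rc α' β' x y) : False := by
  unfold rc rt at h h'
  push_cast at h h'
  omega

theorem cyl : CylStmt := by
  intro n hn D E hD hmono
  have hnz : NeZero n := ⟨by omega⟩
  obtain ⟨C, hC⟩ : ∃ C : ℤ, C = 6 * D + 6 := ⟨_, rfl⟩
  obtain ⟨w, hw⟩ : ∃ w : ℕ, w = 6 * D * D + 3 := ⟨_, rfl⟩
  refine ⟨w * n, fun M hM => ?_⟩
  have hw3 : 3 ≤ w := by omega
  have hwn : w * 3 ≤ w * n := Nat.mul_le_mul_left _ hn
  have hneM : NeZero M := ⟨by omega⟩
  -- lengths of the gaps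
  let len : ℕ → ℕ := fun b => if b = n - 1 then M - 1 - w * b else w - 1
  have hwn1 : w * n = w * (n - 1) + w := by
    obtain ⟨k, rfl⟩ : ∃ k, n = k + 1 := ⟨n - 1, by omega⟩
    simp [Nat.mul_succ]
  have hlenw : ∀ b, b < n → w - 1 ≤ len b := by
    intro b hb
    show w - 1 ≤ (if b = n - 1 then M - 1 - w * b else w - 1)
    split_ifs with h'
    · rw [h']; omega
    · exact le_refl _
  have hlenM : ∀ b, b < n → w * b + len b < M := by
    intro b hb
    show w * b + (if b = n - 1 then M - 1 - w * b else w - 1) < M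
    split_ifs with h'
    · rw [h']; omega
    · have : w * (b + 1) ≤ w * (n - 1) := Nat.mul_le_mul_left _ (by omega)
      rw [Nat.mul_succ] at this
      omega
  have hshort : ∀ b, b ≠ n - 1 → len b = w - 1 := by
    intro b hb
    show (if b = n - 1 then M - 1 - w * b else w - 1) = w - 1
    rw [if_neg hb]
  have cvert : ∀ (x : ℤ) (Y : ZMod M), (Cyl M).Adj (x, Y) (x + 1, Y) := by
    intro x Y
    unfold Cyl
    rw [SimpleGraph.fromRel_adj]
    refine ⟨?_, Or.inl (Or.inl ⟨rfl, rfl⟩)⟩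
    intro h'
    have := congrArg Prod.fst h'
    simp at this
  have chor : ∀ (x : ℤ) (Y : ZMod M), (Cyl M).Adj (x, Y) (x, Y + 1) := by
    intro x Y
    unfold Cyl
    rw [SimpleGraph.fromRel_adj]
    refine ⟨?_, Or.inl (Or.inr ⟨rfl, rfl⟩)⟩
    intro h'
    have h1 := congrArg Prod.snd h'
    simp only at h1
    have h2 : (1 : ZMod M) = 0 := by
      have := left_eq_add.1 h1
      exact this
    have h3 : ((1 : ℕ) : ZMod M) = 0 := by rw [Nat.cast_one]; exact h2
    rw [ZMod.natCast_eq_zero_iff] at h3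
    have := Nat.le_of_dvd (by omega) h3
    omega
  -- next column
  have hnext : ∀ j : ZMod n, (((w * j.val + len j.val : ℕ) : ZMod M) + 1) =
      ((w * (j + 1).val : ℕ) : ZMod M) := by
    intro j
    by_cases hbN : j.val = n - 1
    · have e1 : j + 1 = 0 := by
        have : j = ((n - 1 : ℕ) : ZMod n) := by
          rw [← hbN, ZMod.natCast_zmod_val]
        rw [this]
        have e2 : ((n - 1 : ℕ) : ZMod n) + 1 = ((n - 1 + 1 : ℕ) : ZMod n) := by push_cast; ring
        rw [e2, Nat.sub_add_cancel (by omega), ZMod.natCast_self]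
      rw [e1, ZMod.val_zero]
      have e3 : len j.val = M - 1 - w * j.val := by
        show (if j.val = n - 1 then M - 1 - w * j.val else w - 1) = _
        rw [if_pos hbN]
      rw [e3]
      have hlt : w * j.val + (w - 1) ≤ M - 1 := by
        rw [hbN]; omega
      have e5 : w * j.val + (M - 1 - w * j.val) = M - 1 := by omega
      rw [e5]
      have e6 : ((M - 1 : ℕ) : ZMod M) + 1 = ((M - 1 + 1 : ℕ) : ZMod M) := by push_cast; ring
      rw [e6, Nat.sub_add_cancel (by omega), ZMod.natCast_self]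
      simp
    · have hj := ZMod.val_lt j
      have e1 : (j + 1).val = j.val + 1 := by
        have e2 : (1 : ZMod n).val = 1 := by
          have : Fact (1 < n) := ⟨by omega⟩
          exact ZMod.val_one n
        rw [ZMod.val_add, e2, Nat.mod_eq_of_lt (by omega)]
      have e3 : len j.val = w - 1 := hshort _ hbN
      rw [e1, e3]
      have e4 : ((w * j.val + (w - 1) : ℕ) : ZMod M) + 1 = ((w * j.val + (w - 1) + 1 : ℕ) : ZMod M) := by
        push_cast; ring
      rw [e4]
      congr 1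
      rw [Nat.mul_succ]
      omega
  -- the branch sets
  let al : ℤ → ℤ → ℤ := fun a b => C * a + 3 * (b - a + D)
  let be : ℤ → ℤ → ℤ := fun a b => C * b + 3 * (a - b + D)
  let col : ZMod n → ℕ → ZMod M := fun j x => ((w * j.val + x : ℕ) : ZMod M)
  let seg : ℤ → ZMod n → Set (ℤ × ZMod M) := fun a j =>
    {v | ∃ y : ℤ, (C * a ≤ y ∧ y < C * a + C) ∧ ((y, col j 0) : ℤ × ZMod M) = v}
  let cel : ℤ → ℤ → ZMod n → ℕ → Set (ℤ × ZMod M) := fun a b j x =>
    {v | ∃ y : ℤ, rc (al a b) (be a b) x y ∧ ((y, col j (x + 1)) : ℤ × ZMod M) = v}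
  let rou : ℤ → ZMod n → ℤ → Set (ℤ × ZMod M) := fun a j b =>
    {v | ∃ x, x ≤ len j.val - 1 ∧ v ∈ cel a b j x}
  have hcolinj : ∀ (j j' : ZMod n) (x x' : ℕ), x ≤ len j.val → x' ≤ len j'.val →
      col j x = col j' x' → j = j' ∧ x = x' := by
    intro j j' x x' hx hx' he
    have hb := ZMod.val_lt j
    have hb' := ZMod.val_lt j'
    have hl := hlenM _ hb
    have hl' := hlenM _ hb'
    have e3 : w * j.val + x = w * j'.val + x' := by
      have := congrArg ZMod.val he
      simp only [col] at this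
      rwa [ZMod.val_natCast_of_lt (by omega), ZMod.val_natCast_of_lt (by omega)] at this
    have e4 : j.val = j'.val := by
      rcases Nat.lt_trichotomy j.val j'.val with h' | h' | h'
      · have h1 := hshort j.val (by omega)
        have h2 : w * (j.val + 1) ≤ w * j'.val := Nat.mul_le_mul_left _ (by omega)
        rw [Nat.mul_succ] at h2
        omega
      · exact h'
      · have h1 := hshort j'.val (by omega)
        have h2 : w * (j'.val + 1) ≤ w * j.val := Nat.mul_le_mul_left _ (by omega)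
        rw [Nat.mul_succ] at h2
        omega
    rw [e4] at e3
    exact ⟨ZMod.val_injective n e4, by omega⟩
  have hCpos : 0 < C := by omega
  have hal : ∀ a b : ℤ, |a - b| ≤ D → C * a ≤ al a b ∧ al a b < C * a + C := by
    intro a b h
    rw [abs_le] at h
    show C * a ≤ C * a + 3 * (b - a + D) ∧ C * a + 3 * (b - a + D) < C * a + C
    omega
  have hbe : ∀ a b : ℤ, |a - b| ≤ D → C * b ≤ be a b ∧ be a b < C * b + C := by
    intro a b h
    rw [abs_le] at h
    show C * b ≤ C * b + 3 * (a - b + D) ∧ C * b + 3 * (a - b + D) < C * b + C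
    omega
  have hend : ∀ a b : ℤ, |a - b| ≤ D → ∀ x : ℕ, w - 2 ≤ x → rt (al a b) (be a b) x = be a b := by
    intro a b h x hx
    have e1 : be a b - al a b = 6 * D * (b - a) := by
      show C * b + 3 * (a - b + D) - (C * a + 3 * (b - a + D)) = _
      rw [hC]; ring
    have e2 : |be a b - al a b| ≤ 6 * D * D := by
      rw [e1, abs_mul, abs_sub_comm b a, abs_of_nonneg (by positivity : (0 : ℤ) ≤ 6 * D)]
      exact mul_le_mul_of_nonneg_left h (by positivity)
    rw [abs_le] at e2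
    have e3 : (6 * D * D : ℤ) ≤ x := by
      have : 6 * D * D ≤ x := by omega
      exact_mod_cast this
    exact rt_end _ _ _ (by omega) (by omega)
  have hseg : ∀ a j, Conn (Cyl M) (seg a j) := by
    intro a j
    refine conn_line (fun y : ℤ => ((y, col j 0) : ℤ × ZMod M))
      (fun y => C * a ≤ y ∧ y < C * a + C) (C * a) ⟨le_refl _, by omega⟩ ?_ ?_
      (fun y _ _ => cvert _ _)
    · rintro y hy ⟨h1, h2⟩
      exact ⟨hy, by omega⟩
    · rintro y hy ⟨h1, h2⟩
      exact ⟨by omega, by omega⟩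
  have hcolsucc : ∀ (j : ZMod n) (x : ℕ), col j (x + 1) = col j x + 1 := by
    intro j x
    show ((w * j.val + (x + 1) : ℕ) : ZMod M) = ((w * j.val + x : ℕ) : ZMod M) + 1
    push_cast
    ring
  have hrou : ∀ a j b, Conn (Cyl M) (rou a j b) := by
    intro a j b
    refine conn_chain (cel a b j) (len j.val - 1) ?_ ?_
    · intro x hx
      refine conn_line (fun y : ℤ => ((y, col j (x + 1)) : ℤ × ZMod M))
        (fun y => rc (al a b) (be a b) x y) (rt (al a b) (be a b) x) ?_ ?_ ?_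
        (fun y _ _ => cvert _ _)
      · exact ⟨min_le_left _ _, le_max_left _ _⟩
      · rintro y hy ⟨h1, h2⟩
        exact ⟨(min_le_left _ _).trans hy, by omega⟩
      · rintro y hy ⟨h1, h2⟩
        exact ⟨by omega, hy.trans (le_max_left _ _)⟩
    · intro x hx
      refine ⟨(rt (al a b) (be a b) (x + 1), col j (x + 1)), ⟨_, ⟨min_le_right _ _,
        le_max_right _ _⟩, rfl⟩, (rt (al a b) (be a b) (x + 1), col j (x + 1) + 1),
        ⟨_, ⟨min_le_left _ _, le_max_left _ _⟩, ?_⟩, chor _ _⟩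
      rw [hcolsucc j (x + 1)]
  have hup : ∀ a j, ∃ u ∈ seg a j, ∃ v ∈ seg (a + 1) j, (Cyl M).Adj u v := by
    intro a j
    refine ⟨(C * a + C - 1, col j 0), ⟨_, ⟨by omega, by omega⟩, rfl⟩,
      (C * a + C - 1 + 1, col j 0), ⟨_, ⟨?_, ?_⟩, rfl⟩, cvert _ _⟩
    · rw [mul_add, mul_one]; omega
    · rw [mul_add, mul_one]; omega
  have hsr : ∀ a j b, E j a b → ∃ u ∈ seg a j, ∃ v ∈ rou a j b, (Cyl M).Adj u v := by
    intro a j b hE
    have h1 := hal a b (hD j a b hE)
    refine ⟨(al a b, col j 0), ⟨_, h1, rfl⟩, (al a b, col j 0 + 1), ⟨0, Nat.zero_le _,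
      al a b, ⟨?_, ?_⟩, ?_⟩, chor _ _⟩
    · exact (min_le_left _ _).trans (rt_zero _ _).le
    · exact (rt_zero _ _).ge.trans (le_max_left _ _)
    · rw [hcolsucc j 0]
  have hrs : ∀ a j b, E j a b → ∃ u ∈ rou a j b, ∃ v ∈ seg b (j + 1), (Cyl M).Adj u v := by
    intro a j b hE
    have h1 := hbe a b (hD j a b hE)
    have hl := hlenw _ (ZMod.val_lt j)
    have h2 := hend a b (hD j a b hE) (len j.val - 1) (by omega)
    refine ⟨(be a b, col j (len j.val - 1 + 1)), ⟨len j.val - 1, le_refl _, be a b, ⟨?_, ?_⟩, rfl⟩,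
      (be a b, col j (len j.val - 1 + 1) + 1), ⟨be a b, h1, ?_⟩, chor _ _⟩
    · exact (min_le_left _ _).trans h2.le
    · exact h2.ge.trans (le_max_left _ _)
    · have e1 : len j.val - 1 + 1 = len j.val := by omega
      rw [e1]
      have e2 := hnext j
      show ((be a b, ((w * (j + 1).val + 0 : ℕ) : ZMod M)) : ℤ × ZMod M) =
        (be a b, ((w * j.val + len j.val : ℕ) : ZMod M) + 1)
      rw [e2, Nat.add_zero]
  refine ⟨fun v => {u | u ∈ seg v.1 v.2 ∨ ∃ b, E v.2 v.1 b ∧ u ∈ rou v.1 v.2 b}, ?_, ?_, ?_⟩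
  · rintro ⟨a, j⟩
    exact conn_star (fun b => E j a b) (fun b => rou a j b) (hseg a j) (fun b _ => hrou a j b)
      (fun b hb => hsr a j b hb)
  · rintro ⟨a, j⟩ ⟨a', j'⟩ u hu hu'
    have hl := hlenw _ (ZMod.val_lt j)
    have hl' := hlenw _ (ZMod.val_lt j')
    have key : ∀ (a a' b b' y : ℤ) (j : ZMod n) (x : ℕ), E j a b → E j a' b' → a < a' →
        rc (al a b) (be a b) x y → rc (al a' b') (be a' b') x y → False := by
      intro a a' b b' y j x h1 h2 h3 h4 h5
      have h6 := hmono j a b a' b' h1 h2 h3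
      refine rc_disj ?_ ?_ h4 h5
      · show C * a + 3 * (b - a + D) + 3 ≤ C * a' + 3 * (b' - a' + D)
        have : (C - 3) * 1 ≤ (C - 3) * (a' - a) := mul_le_mul_of_nonneg_left (by omega) (by omega)
        have e : (C - 3) * (a' - a) = C * a' - C * a - 3 * (a' - a) := by ring
        omega
      · show C * b + 3 * (a - b + D) + 3 ≤ C * b' + 3 * (a' - b' + D)
        have : 0 ≤ (C - 3) * (b' - b) := mul_nonneg (by omega) (by omega)
        have e : (C - 3) * (b' - b) = C * b' - C * b - 3 * (b' - b) := by ring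
        omega
    rcases hu with ⟨y, hy, rfl⟩ | ⟨b, hE, x, hx, y, hy, rfl⟩
    · rcases hu' with ⟨y', hy', he⟩ | ⟨b', hE', x', hx', y', hy', he⟩
      · have e1 := congrArg Prod.fst he
        have e2 := congrArg Prod.snd he
        simp only at e1 e2 hy hy'
        obtain ⟨e3, -⟩ := hcolinj _ _ _ _ (Nat.zero_le _) (Nat.zero_le _) e2
        have g1 : C * a < C * (a' + 1) := by rw [mul_add, mul_one]; omega
        have g2 : C * a' < C * (a + 1) := by rw [mul_add, mul_one]; omega
        have g3 := lt_of_mul_lt_mul_left g1 hCpos.le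
        have g4 := lt_of_mul_lt_mul_left g2 hCpos.le
        have g5 : a = a' := by omega
        rw [e3, g5]
      · have e2 := congrArg Prod.snd he
        simp only at e2 hx'
        obtain ⟨-, e3⟩ := hcolinj _ _ _ _ (by omega) (Nat.zero_le _) e2
        omega
    · rcases hu' with ⟨y', hy', he⟩ | ⟨b', hE', x', hx', y', hy', he⟩
      · have e2 := congrArg Prod.snd he
        simp only at e2 hx
        obtain ⟨-, e3⟩ := hcolinj _ _ _ _ (Nat.zero_le _) (by omega) e2
        omega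
      · have e1 := congrArg Prod.fst he
        have e2 := congrArg Prod.snd he
        simp only at e1 e2 hx hx'
        obtain ⟨e3, e4⟩ := hcolinj _ _ _ _ (by omega) (by omega) e2
        subst e3
        subst e1
        have e5 : x' = x := by omega
        subst e5
        rcases lt_trichotomy a a' with h' | h' | h'
        · exact (key a a' b b' _ _ _ hE hE' h' hy hy').elim
        · rw [h']
        · exact (key a' a b' b _ _ _ hE' hE h' hy' hy).elim
  · have up : ∀ (a : ℤ) (j : ZMod n),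
        ∃ u ∈ {u | u ∈ seg a j ∨ ∃ b, E j a b ∧ u ∈ rou a j b},
        ∃ v ∈ {u | u ∈ seg (a + 1) j ∨ ∃ b, E j (a + 1) b ∧ u ∈ rou (a + 1) j b},
        (Cyl M).Adj u v := by
      intro a j
      obtain ⟨u, hu, v, hv, huv⟩ := hup a j
      exact ⟨u, Or.inl hu, v, Or.inl hv, huv⟩
    have ac : ∀ (a b : ℤ) (j : ZMod n), E j a b →
        ∃ u ∈ {u | u ∈ seg a j ∨ ∃ b, E j a b ∧ u ∈ rou a j b},
        ∃ v ∈ {u | u ∈ seg b (j + 1) ∨ ∃ c, E (j + 1) b c ∧ u ∈ rou b (j + 1) c},
        (Cyl M).Adj u v := by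
      intro a b j hE
      obtain ⟨u, hu, v, hv, huv⟩ := hrs a j b hE
      exact ⟨u, Or.inr ⟨b, hE, hu⟩, v, Or.inl hv, huv⟩
    rintro ⟨a, j⟩ ⟨b, k⟩ hadj
    rw [SimpleGraph.fromRel_adj] at hadj
    obtain ⟨hne, (⟨h1, h2⟩ | ⟨h1, h2⟩) | (⟨h1, h2⟩ | ⟨h1, h2⟩)⟩ := hadj
    · simp only at h1 h2
      subst h1 h2
      exact up a _
    · simp only at h1 h2
      subst h1
      exact ac a b j h2
    · simp only at h1 h2
      subst h1 h2
      obtain ⟨u, hu, v, hv, huv⟩ := up b _
      exact ⟨v, hv, u, hu, huv.symm⟩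
    · simp only at h1 h2
      subst h1
      obtain ⟨u, hu, v, hv, huv⟩ := ac b a k h2
      exact ⟨v, hv, u, hu, huv.symm⟩

end Pool.Agent.Helper54.NW
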