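import Pool.Agent.Helper54.NW.PHI

/-!
# Project NW+, packet DIH
-/

set_option autoImplicit false

namespace Pool.Agent.Helper54.NW

open Pool.Agent.Helper52.Wq2
open Pool.Agent.Helper61.NW
open scoped Nat

universe u

variable {Γ : Type u} [Group Γ] {ε : Γ →* ℤˣ} {h : Γ → ℤ}

theorem ee (ε : Γ →* ℤˣ) (g : Γ) : (ε g : ℤ) = 1 ∨ (ε g : ℤ) = -1 := by
  rcases Int.units_eq_one_or (ε g) with h | h
  · left; rw [h]; rfl
  · right; rw [h]; rfl

theorem e_inv (ε : Γ →* ℤˣ) (g : Γ) : (ε g⁻¹ : ℤ) = ε g := by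
  rw [map_inv, Int.units_inv_eq_self]

theorem e_mul (ε : Γ →* ℤˣ) (a b : Γ) : (ε (a * b) : ℤ) = ε a * ε b := by
  rw [map_mul]; rfl

theorem e_one (ε : Γ →* ℤˣ) {g : Γ} (h : (ε g : ℤ) = 1) : ε g = 1 := Units.ext h

theorem e_zpow (ε : Γ →* ℤˣ) {s : Γ} (hs : ε s = 1) (k : ℤ) : ε (s ^ k) = 1 := by
  rw [map_zpow, hs, one_zpow]

theorem d_one (D : Dh ε h) : h 1 = 0 := by
  have := D.coc 1 1
  rw [mul_one, map_one] at this
  simp at this
  exact this

theorem d_inv (D : Dh ε h) (g : Γ) : h g⁻¹ = -((ε g : ℤ) * h g) := by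
  have h1 := D.coc g⁻¹ g
  rw [inv_mul_cancel, d_one D, e_inv] at h1
  linarith

theorem d_zpow (D : Dh ε h) {s : Γ} (hs : ε s = 1) (k : ℤ) : h (s ^ k) = k * h s := by
  have hn : ∀ k : ℕ, h (s ^ k) = k * h s := by
    intro k
    induction k with
    | zero => rw [pow_zero, d_one D]; simp
    | succ k ih =>
      rw [pow_succ, D.coc, ih, map_pow, hs, one_pow]
      push_cast
      ring
  obtain ⟨j, rfl | rfl⟩ := k.eq_nat_or_neg
  · rw [zpow_natCast, hn]
  · rw [zpow_neg, zpow_natCast, d_inv D, hn, map_pow, hs, one_pow]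
    push_cast
    ring

/-- The kernel. -/
def KK (D : Dh ε h) : Subgroup Γ where
  carrier := {g | ε g = 1 ∧ h g = 0}
  mul_mem' := by
    rintro a b ⟨h1, h2⟩ ⟨h3, h4⟩
    refine ⟨by rw [map_mul, h1, h3, one_mul], ?_⟩
    rw [D.coc, h2, h4, mul_zero, add_zero]
  one_mem' := ⟨map_one ε, d_one D⟩
  inv_mem' := by
    rintro a ⟨h1, h2⟩
    refine ⟨by rw [map_inv, h1, inv_one], ?_⟩
    rw [d_inv D, h2, mul_zero, neg_zero]

theorem kk_mem (D : Dh ε h) (g : Γ) : g ∈ KK D ↔ ε g = 1 ∧ h g = 0 := Iff.rfl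

theorem kk_normal (D : Dh ε h) : (KK D).Normal := by
  refine ⟨?_⟩
  intro k hk x
  rw [kk_mem] at hk ⊢
  obtain ⟨h1, h2⟩ := hk
  refine ⟨by rw [map_mul, map_mul, h1, map_inv, mul_one, mul_inv_cancel], ?_⟩
  rw [D.coc, D.coc, d_inv D, h2, e_mul, h1]
  rcases ee ε x with h | h <;> rw [h] <;> push_cast <;> ring

/-- The power lemma. -/
theorem d_power (D : Dh ε h) {s : Γ} (hs : ε s = 1) (n : ℕ) (hn : Nat.card (KK D) ≤ n) (x : Γ) :
    x * s ^ (n ! * Nat.card (KK D)) * x⁻¹ =
      s ^ ((ε x : ℤ) * ((n ! * Nat.card (KK D) : ℕ) : ℤ)) := by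
  classical
  have hKfin : Finite (KK D) := D.ker
  have hKn := kk_normal D
  have hcomm : ∀ k ∈ KK D, s ^ (n !) * k = k * s ^ (n !) := by
    intro k hk
    let σ : Equiv.Perm (KK D) := (MulAut.conjNormal (H := KK D) s).toEquiv
    have hσ : ∀ (j : ℕ) (x : KK D), ((σ ^ j) x : Γ) = s ^ j * x * (s ^ j)⁻¹ := by
      intro j
      induction j with
      | zero => intro x; simp
      | succ j ih =>
        intro x
        rw [pow_succ', Equiv.Perm.mul_apply]
        change ((MulAut.conjNormal (H := KK D) s ((σ ^ j) x) : KK D) : Γ) = _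
        rw [MulAut.conjNormal_apply, ih x, pow_succ']
        group
    have h1 : orderOf σ ∣ (Nat.card (KK D))! := by
      have := orderOf_dvd_natCard σ
      rwa [Nat.card_perm] at this
    have h2 : σ ^ (n !) = 1 :=
      orderOf_dvd_iff_pow_eq_one.1 (h1.trans (Nat.factorial_dvd_factorial hn))
    have h3 := hσ (n !) ⟨k, hk⟩
    rw [h2, Equiv.Perm.one_apply] at h3
    have h4 : k = s ^ (n !) * k * (s ^ (n !))⁻¹ := h3
    exact (eq_mul_inv_iff_mul_eq.1 h4).symm
  obtain ⟨a, ha⟩ : ∃ a, a = s ^ (n !) := ⟨_, rfl⟩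
  have hea : ε a = 1 := by rw [ha, map_pow, hs, one_pow]
  obtain ⟨b, hb⟩ : ∃ b, b = a ^ (ε x : ℤ) := ⟨_, rfl⟩
  have heb : ε b = 1 := by rw [hb]; exact e_zpow ε hea _
  have hhb : h b = ε x * h a := by rw [hb]; exact d_zpow D hea _
  obtain ⟨c, hcdef⟩ : ∃ c, c = x * a * x⁻¹ * b⁻¹ := ⟨_, rfl⟩
  have hc : c ∈ KK D := by
    rw [kk_mem]
    refine ⟨?_, ?_⟩
    · rw [hcdef, map_mul, map_mul, map_mul, hea, map_inv, map_inv, heb, mul_one, inv_one, mul_one,
        mul_inv_cancel]
    · have e1 : h b⁻¹ = - h b := by rw [d_inv D, heb]; simp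
      have e2 : (ε (x * a * x⁻¹) : ℤ) = 1 := by
        rw [e_mul, e_mul, e_inv, hea]
        rcases ee ε x with h | h <;> rw [h] <;> simp
      have e3 : (ε (x * a) : ℤ) = ε x := by rw [e_mul, hea]; simp
      rw [hcdef, D.coc, e2, D.coc, e3, D.coc, d_inv D, e1, hhb]
      rcases ee ε x with h | h <;> rw [h] <;> ring
  have h1 : x * a * x⁻¹ = c * b := by
    rw [hcdef]
    group
  have h2 : Commute c b := by
    rw [hb]
    refine Commute.zpow_right ?_ _
    rw [ha]
    exact (hcomm c hc).symm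
  have h3 : c ^ Nat.card (KK D) = 1 := by
    have h5 : (⟨c, hc⟩ : KK D) ^ Nat.card (KK D) = 1 := pow_card_eq_one'
    exact congrArg (fun z : KK D => (z : Γ)) h5
  rw [pow_mul, ← ha, ← conj_pow, h1, h2.mul_pow, h3, one_mul, hb, ha]
  rw [← zpow_natCast s, ← zpow_mul, ← zpow_natCast, ← zpow_mul]
  congr 1
  push_cast
  ring

omit [Group Γ] in
theorem Xz' {X : Γ → ℤ} {pp : Equiv.Perm Γ} {H : ℤ} (up : ∀ g, X (pp g) = X g + H) (g : Γ)
    (k : ℤ) : X ((pp ^ k) g) = X g + k * H := by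
  have hn : ∀ (k : ℕ) (g : Γ), X ((pp ^ k) g) = X g + k * H := by
    intro k
    induction k with
    | zero => intro g; simp
    | succ k ih =>
      intro g
      rw [pow_succ', Equiv.Perm.mul_apply, up, ih]
      push_cast
      ring
  obtain ⟨j, rfl | rfl⟩ := k.eq_nat_or_neg
  · rw [zpow_natCast, hn]
  · have h1 := hn j ((pp ^ (-(j : ℤ))) g)
    have h2 : (pp ^ j) ((pp ^ (-(j : ℤ))) g) = g := by
      rw [zpow_neg, zpow_natCast]
      exact Equiv.apply_symm_apply (pp ^ j) g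
    rw [h2] at h1
    linarith

/-- The kernel has at most as many elements as there are lines. -/
theorem card_le (D : Dh ε h) {X : Γ → ℤ} {y₀ : ℤ} (hX : ∀ g, X g = 4 * h g + ε g * y₀)
    {pp : Equiv.Perm Γ} {H : ℤ} (hH : 0 < H) (up : ∀ g, X (pp g) = X g + H)
    (hfin : {g | 0 ≤ X g ∧ X g < H}.Finite) :
    Nat.card (KK D) ≤ Nat.card {g // 0 ≤ X g ∧ X g < H} ∧ 0 < Nat.card (KK D) := by
  have hf : Finite {g // 0 ≤ X g ∧ X g < H} := hfin
  have hKfin : Finite (KK D) := D.ker
  refine ⟨?_, Nat.card_pos⟩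
  obtain ⟨b, hb0, hb1⟩ : ∃ b, 0 ≤ X b ∧ X b < H := by
    refine ⟨(pp ^ (-(X 1 / H))) 1, ?_⟩
    rw [Xz' up]
    have h1 := Int.emod_add_mul_ediv (X 1) H
    have h2 := Int.emod_nonneg (X 1) hH.ne'
    have h3 := Int.emod_lt_of_pos (X 1) hH
    have h4 : X 1 + -(X 1 / H) * H = X 1 % H := by
      linarith [mul_comm H (X 1 / H)]
    rw [h4]
    exact ⟨h2, h3⟩
  have hXk : ∀ k : KK D, X ((k : Γ) * b) = X b := by
    intro k
    obtain ⟨h1, h2⟩ := (kk_mem D _).1 k.2
    rw [hX, hX, D.coc, e_mul, h1, h2]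
    push_cast
    ring
  refine Nat.card_le_card_of_injective
    (fun k : KK D => (⟨(k : Γ) * b, by rw [hXk]; exact ⟨hb0, hb1⟩⟩ :
      {g // 0 ≤ X g ∧ X g < H})) ?_
  intro k k' hkk
  have h1 := congrArg Subtype.val hkk
  exact Subtype.ext (mul_right_cancel h1)

theorem d_fin (D : Dh ε h) {X : Γ → ℤ} {y₀ : ℤ} (hX : ∀ g, X g = 4 * h g + ε g * y₀) (H : ℤ) :
    {g | 0 ≤ X g ∧ X g < H}.Finite := by
  have h1 : ((fun g : Γ => ((ε g, h g) : ℤˣ × ℤ)) ⁻¹'
      ((Set.univ : Set ℤˣ) ×ˢ Set.Icc (-|y₀|) (|H| + |y₀|))).Finite := by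
    refine Set.Finite.preimage' (Set.Finite.prod Set.finite_univ (Set.finite_Icc _ _)) ?_
    rintro ⟨e, v⟩ -
    by_cases hne : ((fun g : Γ => ((ε g, h g) : ℤˣ × ℤ)) ⁻¹' {(e, v)}).Nonempty
    · obtain ⟨g₀, hg₀⟩ := hne
      simp only [Set.mem_preimage, Set.mem_singleton_iff, Prod.mk.injEq] at hg₀
      refine (D.ker.image (fun k => g₀ * k)).subset ?_
      intro g hg
      simp only [Set.mem_preimage, Set.mem_singleton_iff, Prod.mk.injEq] at hg
      refine ⟨g₀⁻¹ * g, ⟨?_, ?_⟩, by group⟩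
      · rw [map_mul, map_inv, hg₀.1, hg.1, inv_mul_cancel]
      · rw [D.coc, d_inv D, e_inv, hg₀.1, hg₀.2, hg.2]
        ring
    · rw [Set.not_nonempty_iff_eq_empty] at hne
      rw [hne]
      exact Set.finite_empty
  refine h1.subset ?_
  rintro g ⟨h2, h3⟩
  refine ⟨trivial, ?_⟩
  show -|y₀| ≤ h g ∧ h g ≤ |H| + |y₀|
  rw [hX] at h2 h3
  have a1 := neg_abs_le y₀
  have a2 := le_abs_self y₀
  have a3 := le_abs_self H
  have a4 := abs_nonneg H
  rcases ee ε g with he | he <;> rw [he] at h2 h3 <;> omega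

theorem wrap {S : Set Γ} {X : Γ → ℤ} {pp : Equiv.Perm Γ} {H : ℤ} {m : ℕ} (hS : IsGen S)
    (P : Phi S X pp H m) (hm : m ≤ 2 * ((Nat.card {g // 0 ≤ X g ∧ X g < H})! *
      (Nat.card {g // 0 ≤ X g ∧ X g < H} * Nat.card {g // 0 ≤ X g ∧ X g < H}))) :
    ∃ (n m : ℕ) (G : SimpleGraph (ℤ × Fin n)), m ≤ 2 * (n ! * (n * n)) ∧
    Lsys n m G ∧ Nonempty (cay S ≃g G) := by
  obtain ⟨G, h1, h2⟩ := phi_lsys P hS
  exact ⟨_, m, G, hm, h1, h2⟩

theorem dih : DihStmt.{u} := by
  classical
  intro Γ _ ε h S D hS hSf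
  have hSi := hS.2.1
  -- reflections
  have hR : ∃ t ∈ S, (ε t : ℤ) = -1 := by
    by_contra hno
    push Not at hno
    have hle : Subgroup.closure S ≤ ε.ker := by
      rw [Subgroup.closure_le]
      intro t ht
      rw [SetLike.mem_coe, MonoidHom.mem_ker]
      exact e_one ε ((ee ε t).resolve_right (hno t ht))
    obtain ⟨u, hu⟩ := D.neg
    have h1 : u ∈ ε.ker := hle (by rw [hS.1]; trivial)
    rw [MonoidHom.mem_ker, hu] at h1
    exact absurd h1 (by decide)
  have hRf : {t ∈ S | (ε t : ℤ) = -1}.Finite := hSf.subset (fun t ht => ht.1)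
  have hRn : {t ∈ S | (ε t : ℤ) = -1}.Nonempty := by
    obtain ⟨t, h1, h2⟩ := hR
    exact ⟨t, h1, h2⟩
  obtain ⟨t, ⟨htS, hte⟩, htm⟩ := Set.exists_max_image _ h hRf hRn
  obtain ⟨r, ⟨hrS, hre⟩, hrm⟩ := Set.exists_min_image _ h hRf hRn
  obtain ⟨y₀, hy₀⟩ : ∃ y₀, y₀ = h t + h r := ⟨_, rfl⟩
  obtain ⟨X, hX⟩ : ∃ X : Γ → ℤ, ∀ g, X g = 4 * h g + ε g * y₀ := ⟨_, fun g => rfl⟩
  obtain ⟨d, hd⟩ : ∃ d : Γ → ℤ, ∀ g, d g = 4 * h g + (ε g - 1) * y₀ := ⟨_, fun g => rfl⟩
  have hXm : ∀ g u, X (g * u) = X g + ε g * d u := by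
    intro g u
    rw [hX, hX, hd, D.coc, e_mul]
    ring
  have hSn : S.Nonempty := ⟨t, htS⟩
  obtain ⟨u₀, hu₀S, hu₀⟩ := Set.exists_max_image S (fun u => |d u|) hSf hSn
  obtain ⟨H, hHd⟩ : ∃ H, H = |d u₀| := ⟨_, rfl⟩
  have hmax : ∀ u ∈ S, |d u| ≤ H := by
    intro u hu
    rw [hHd]
    exact hu₀ u hu
  have hH : 0 < H := by
    by_contra hno
    have h0 : ∀ u ∈ S, d u = 0 := by
      intro u hu
      have h1 := hmax u hu
      have h2 := abs_nonneg (d u)
      have h3 : |d u| = 0 := by omega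
      exact abs_eq_zero.1 h3
    have h2 : ∀ y : Γ, y ∈ Subgroup.closure S → ∀ g : Γ, X (g * y) = X g := by
      intro y hy
      induction hy using Subgroup.closure_induction with
      | mem u hu => intro g; rw [hXm, h0 u hu, mul_zero, add_zero]
      | one => intro g; rw [mul_one]
      | mul x y _ _ hx hy => intro g; rw [← mul_assoc, hy, hx]
      | inv x _ hx =>
        intro g
        have := hx (g * x⁻¹)
        rw [inv_mul_cancel_right] at this
        exact this.symm
    obtain ⟨g, hg1, hg2⟩ := D.unb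
    have h3 := h2 g (by rw [hS.1]; trivial) 1
    rw [one_mul, hX, hX, hg1, map_one, d_one D] at h3
    simp at h3
    exact hg2 h3
  have hnear : ∀ g u, u ∈ S → |X (g * u) - X g| ≤ H := by
    intro g u hu
    rw [hXm, add_sub_cancel_left, abs_mul]
    rcases ee ε g with he | he <;> rw [he] <;> simp <;> exact hmax u hu
  have hfin := d_fin D hX H
  by_cases hcase : ∃ s ∈ S, ε s = 1 ∧ |4 * h s| = H
  · -- translation lines
    obtain ⟨s, hsS, hse, hsH⟩ : ∃ s ∈ S, ε s = 1 ∧ 4 * h s = H := by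
      obtain ⟨s, h1, h2, h3⟩ := hcase
      rcases le_total 0 (4 * h s) with h4 | h4
      · exact ⟨s, h1, h2, by rw [abs_of_nonneg h4] at h3; exact h3⟩
      · refine ⟨s⁻¹, hSi s h1, by rw [map_inv, h2, inv_one], ?_⟩
        rw [abs_of_nonpos h4] at h3
        rw [d_inv D, h2, ← h3]
        push_cast
        ring
    have hes : ∀ (g : Γ) (k : ℤ), ε (g * s ^ k) = ε g := by
      intro g k
      rw [map_mul, e_zpow ε hse, mul_one]
    let pp : Equiv.Perm Γ :=
      { toFun := fun g => g * s ^ (ε g : ℤ)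
        invFun := fun g => g * s ^ (-(ε g : ℤ))
        left_inv := by
          intro g
          show g * s ^ (ε g : ℤ) * s ^ (-(ε (g * s ^ (ε g : ℤ)) : ℤ)) = g
          rw [hes, mul_assoc, ← zpow_add, add_neg_cancel, zpow_zero, mul_one]
        right_inv := by
          intro g
          show g * s ^ (-(ε g : ℤ)) * s ^ (ε (g * s ^ (-(ε g : ℤ))) : ℤ) = g
          rw [hes, mul_assoc, ← zpow_add, neg_add_cancel, zpow_zero, mul_one] }
    have hf : ∀ g, pp g = g * s ^ (ε g : ℤ) := fun g => rfl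
    have hfi : ∀ g, (pp ^ (-1 : ℤ)) g = g * s ^ (-(ε g : ℤ)) := by
      intro g
      rw [zpow_neg_one]
      rfl
    have hfn : ∀ (k : ℕ) (g : Γ), (pp ^ k) g = g * s ^ ((ε g : ℤ) * k) := by
      intro k
      induction k with
      | zero => intro g; simp
      | succ k ih =>
        intro g
        rw [pow_succ', Equiv.Perm.mul_apply, ih, hf, hes, mul_assoc, ← zpow_add]
        congr 2
        push_cast
        ring
    have hds : ∀ g, d (s ^ (ε g : ℤ)) = ε g * H := by
      intro g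
      rw [hd, d_zpow D hse, e_zpow ε hse, ← hsH]
      push_cast
      ring
    have hup : ∀ g, X (pp g) = X g + H := by
      intro g
      rw [hf, hXm, hds]
      rcases ee ε g with he | he <;> rw [he] <;> ring
    obtain ⟨hc1, hc2⟩ := card_le D hX hH hup hfin
    obtain ⟨n, hn⟩ : ∃ n, n = Nat.card {g // 0 ≤ X g ∧ X g < H} := ⟨_, rfl⟩
    rw [← hn] at hc1
    refine wrap (pp := pp) (H := H) (X := X) (m := n ! * Nat.card (KK D)) hS
      ⟨hH, hup, ?_, hnear, hfin, Nat.mul_pos (Nat.factorial_pos n) hc2, ?_, ?_⟩ ?_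
    · intro g
      rw [hf]
      rcases ee ε g with he | he
      · rw [he, zpow_one]
        exact cay_mul hS g s hsS
      · rw [he, zpow_neg_one]
        exact cay_mul hS g _ (hSi s hsS)
    · refine ⟨s ^ (n ! * Nat.card (KK D)), fun g => ?_⟩
      have h1 := d_power D hse n hc1 g⁻¹
      rw [inv_inv, e_inv] at h1
      rw [hfn, ← h1]
      group
    · intro g g'
      refine ⟨g' * g⁻¹, ε (g' * g⁻¹), ee ε _, ?_, 0, by simp⟩
      intro y
      have h1 : ∀ x y : Γ, x * pp y = (pp ^ (ε x : ℤ)) (x * y) := by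
        intro x y
        rcases ee ε x with he | he
        · rw [he, zpow_one, hf, hf, e_mul, he, one_mul, mul_assoc]
        · rw [he, hfi, hf, e_mul, he, neg_mul, one_mul, neg_neg, mul_assoc]
      exact h1 _ y
    · rw [← hn]
      have h1 : Nat.card (KK D) ≤ n * n := hc1.trans (Nat.le_mul_self n)
      have h2 := Nat.mul_le_mul_left (n !) h1
      omega
  · -- reflection lines
    push Not at hcase
    have hdt : d t = 2 * (h t - h r) := by rw [hd, hte, hy₀]; ring
    have hdr : d r = - (2 * (h t - h r)) := by rw [hd, hre, hy₀]; ring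
    have hu₀e : (ε u₀ : ℤ) = -1 := by
      rcases ee ε u₀ with he | he
      · exfalso
        refine hcase u₀ hu₀S (e_one ε he) ?_
        rw [hHd, hd, he]
        congr 1
        ring
      · exact he
    have hHtr : H = 2 * (h t - h r) := by
      have h1 := htm u₀ ⟨hu₀S, hu₀e⟩
      have h2 := hrm u₀ ⟨hu₀S, hu₀e⟩
      have h3 := hmax t htS
      have h4 : d u₀ = 4 * h u₀ - 2 * (h t + h r) := by rw [hd, hu₀e, hy₀]; ring
      have h5 : |d u₀| ≤ 2 * (h t - h r) := by
        rw [h4, abs_le]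
        constructor <;> linarith
      rw [hdt] at h3
      have h6 := le_abs_self (2 * (h t - h r))
      rw [← hHd] at h5
      omega
    let pp : Equiv.Perm Γ :=
      { toFun := fun g => if (ε g : ℤ) = 1 then g * t else g * r
        invFun := fun g => if (ε g : ℤ) = 1 then g * r⁻¹ else g * t⁻¹
        left_inv := by
          intro g
          show (if (ε (if (ε g : ℤ) = 1 then g * t else g * r) : ℤ) = 1 then
            (if (ε g : ℤ) = 1 then g * t else g * r) * r⁻¹ else
            (if (ε g : ℤ) = 1 then g * t else g * r) * t⁻¹) = g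
          rcases ee ε g with he | he
          · rw [if_pos he, e_mul, he, hte, if_neg (by decide), mul_inv_cancel_right]
          · have : ¬ (ε g : ℤ) = 1 := by rw [he]; decide
            rw [if_neg this, e_mul, he, hre, if_pos (by decide), mul_inv_cancel_right]
        right_inv := by
          intro g
          show (if (ε (if (ε g : ℤ) = 1 then g * r⁻¹ else g * t⁻¹) : ℤ) = 1 then
            (if (ε g : ℤ) = 1 then g * r⁻¹ else g * t⁻¹) * t else
            (if (ε g : ℤ) = 1 then g * r⁻¹ else g * t⁻¹) * r) = g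
          rcases ee ε g with he | he
          · rw [if_pos he, e_mul, e_inv, he, hre, if_neg (by decide), inv_mul_cancel_right]
          · have : ¬ (ε g : ℤ) = 1 := by rw [he]; decide
            rw [if_neg this, e_mul, e_inv, he, hte, if_pos (by decide), inv_mul_cancel_right] }
    have hf1 : ∀ g, (ε g : ℤ) = 1 → pp g = g * t := fun g hg => if_pos hg
    have hf2 : ∀ g, (ε g : ℤ) = -1 → pp g = g * r := fun g hg => if_neg (by rw [hg]; decide)
    have hup : ∀ g, X (pp g) = X g + H := by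
      intro g
      rcases ee ε g with he | he
      · rw [hf1 g he, hXm, he, hdt, hHtr]; ring
      · rw [hf2 g he, hXm, he, hdr, hHtr]; ring
    have hetr : ε (t * r) = 1 := by
      apply e_one
      rw [e_mul, hte, hre]
      rfl
    have hert : ε (r * t) = 1 := by
      apply e_one
      rw [e_mul, hte, hre]
      rfl
    have hfp : ∀ (k : ℕ) (g : Γ), (ε g : ℤ) = 1 → (pp ^ (2 * k)) g = g * (t * r) ^ k := by
      intro k
      induction k with
      | zero => intro g _; simp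
      | succ k ih =>
        intro g hg
        have e1 : 2 * (k + 1) = 1 + (1 + 2 * k) := by ring
        have e2 : (ε (g * (t * r) ^ k) : ℤ) = 1 := by
          rw [e_mul, hg, map_pow, hetr, one_pow]; rfl
        have e3 : (ε (g * (t * r) ^ k * t) : ℤ) = -1 := by
          rw [e_mul, e2, hte]; rfl
        rw [e1, pow_add, pow_add, pow_one, Equiv.Perm.mul_apply, Equiv.Perm.mul_apply, ih g hg,
          hf1 _ e2, hf2 _ e3, pow_succ]
        group
    have hfm : ∀ (k : ℕ) (g : Γ), (ε g : ℤ) = -1 → (pp ^ (2 * k)) g = g * (r * t) ^ k := by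
      intro k
      induction k with
      | zero => intro g _; simp
      | succ k ih =>
        intro g hg
        have e1 : 2 * (k + 1) = 1 + (1 + 2 * k) := by ring
        have e2 : (ε (g * (r * t) ^ k) : ℤ) = -1 := by
          rw [e_mul, hg, map_pow, hert, one_pow]; rfl
        have e3 : (ε (g * (r * t) ^ k * r) : ℤ) = 1 := by
          rw [e_mul, e2, hre]; rfl
        rw [e1, pow_add, pow_add, pow_one, Equiv.Perm.mul_apply, Equiv.Perm.mul_apply, ih g hg,
          hf2 _ e2, hf1 _ e3, pow_succ]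
        group
    obtain ⟨hc1, hc2⟩ := card_le D hX hH hup hfin
    obtain ⟨n, hn⟩ : ∃ n, n = Nat.card {g // 0 ≤ X g ∧ X g < H} := ⟨_, rfl⟩
    rw [← hn] at hc1
    refine wrap (pp := pp) (H := H) (X := X) (m := 2 * (n ! * Nat.card (KK D))) hS
      ⟨hH, hup, ?_, hnear, hfin,
        Nat.mul_pos two_pos (Nat.mul_pos (Nat.factorial_pos n) hc2), ?_, ?_⟩ ?_
    · intro g
      rcases ee ε g with he | he
      · rw [hf1 g he]
        exact cay_mul hS g t htS
      · rw [hf2 g he]
        exact cay_mul hS g r hrS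
    · refine ⟨(t * r) ^ (n ! * Nat.card (KK D)), fun g => ?_⟩
      have h1 := d_power D hetr n hc1 g⁻¹
      rw [inv_inv, e_inv] at h1
      have h2 := d_power D hetr n hc1 r
      rcases ee ε g with he | he
      · rw [hfp _ g he]
        rw [he, one_mul, zpow_natCast] at h1
        calc (t * r) ^ (n ! * Nat.card (KK D)) * g
            = g * (g⁻¹ * (t * r) ^ (n ! * Nat.card (KK D)) * g) := by group
          _ = g * (t * r) ^ (n ! * Nat.card (KK D)) := by rw [h1]
      · rw [hfm _ g he]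
        rw [he] at h1
        rw [hre] at h2
        have h3 : (r * t) ^ (n ! * Nat.card (KK D)) =
            r * (t * r) ^ (n ! * Nat.card (KK D)) * r⁻¹ := by
          rw [← conj_pow]
          congr 1
          group
        calc (t * r) ^ (n ! * Nat.card (KK D)) * g
            = g * (g⁻¹ * (t * r) ^ (n ! * Nat.card (KK D)) * g) := by group
          _ = g * (r * t) ^ (n ! * Nat.card (KK D)) := by rw [h1, h3, h2]
    · intro g g'
      have h1 : ∀ x y : Γ, (ε x : ℤ) = 1 → x * pp y = (pp ^ (1 : ℤ)) (x * y) := by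
        intro x y hx
        rw [zpow_one]
        rcases ee ε y with he | he
        · rw [hf1 y he, hf1 (x * y) (by rw [e_mul, hx, he]; rfl), mul_assoc]
        · rw [hf2 y he, hf2 (x * y) (by rw [e_mul, hx, he]; rfl), mul_assoc]
      by_cases hgg : (ε g : ℤ) = ε g'
      · refine ⟨g' * g⁻¹, 1, Or.inl rfl, fun y => h1 _ y ?_, 0, by simp⟩
        rw [e_mul, e_inv, hgg]
        rcases ee ε g' with he | he <;> rw [he] <;> rfl
      · refine ⟨pp g' * g⁻¹, 1, Or.inl rfl, fun y => h1 _ y ?_, 1, by simp⟩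
        rcases ee ε g' with he | he
        · rw [hf1 g' he, e_mul, e_mul, e_inv, he, hte]
          rcases ee ε g with he' | he'
          · exact absurd (he'.trans he.symm) hgg
          · rw [he']; rfl
        · rw [hf2 g' he, e_mul, e_mul, e_inv, he, hre]
          rcases ee ε g with he' | he'
          · rw [he']; rfl
          · exact absurd (he'.trans he.symm) hgg
    · rw [← hn]
      have h1 : Nat.card (KK D) ≤ n * n := hc1.trans (Nat.le_mul_self n)
      have h2 := Nat.mul_le_mul_left (n !) h1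
      omega

end Pool.Agent.Helper54.NW
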