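import Pool.Agent.Helper54.NW.ZPB
import Pool.Agent.Helper80.KZ.PRE

/-!
# Virtually `ℤ²` groups with a nontrivial finite normal subgroup
-/

set_option autoImplicit false

namespace Pool.Agent.Helper54.NW

open Pool.Agent.Helper52.Wq2

universe u

theorem tri_of {Γ : Type u} [Group Γ] {a b k : Γ} (hab : a * b = b * a) (hak : a * k = k * a)
    (hbk : b * k = k * b) (hi : ∀ i j : ℤ, a ^ i * b ^ j = 1 → i = 0 ∧ j = 0) (hk : k ≠ 1)
    {o : ℕ} (ho : 0 < o) (hko : k ^ o = 1) : Tri a b k := by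
  refine ⟨hab, hak, hbk, ?_, hk⟩
  intro i j l h
  unfold Fe at h
  have c1 : Commute (a ^ i) (b ^ j) := (show Commute a b from hab).zpow_zpow _ _
  have c2 : Commute (a ^ i) (k ^ l) := (show Commute a k from hak).zpow_zpow _ _
  have c3 : Commute (b ^ j) (k ^ l) := (show Commute b k from hbk).zpow_zpow _ _
  have h1 : (a ^ i * b ^ j * k ^ l) ^ o = 1 := by rw [h, one_pow]
  have h2 : (k ^ l) ^ o = 1 := by
    rw [← zpow_natCast, ← zpow_mul, mul_comm, zpow_mul, zpow_natCast, hko, one_zpow]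
  rw [(c2.mul_left c3).mul_pow, h2, mul_one, c1.mul_pow, ← zpow_natCast, ← zpow_natCast,
    ← zpow_mul, ← zpow_mul] at h1
  obtain ⟨h3, h4⟩ := hi _ _ h1
  have ho' : (o : ℤ) ≠ 0 := by exact_mod_cast ho.ne'
  exact ⟨(mul_eq_zero.1 h3).resolve_right ho', (mul_eq_zero.1 h4).resolve_right ho'⟩

theorem kz2 : Pool.Agent.Helper95.KZ.Kz2Stmt.{u} := by
  intro Γ _ S hS hA hK
  obtain ⟨K, hKn, hK1, hKf⟩ := hK
  obtain ⟨a, b, hab, hak, hbk, hi, -⟩ := Pool.Agent.Helper80.KZ.pre Γ K hKn hKf hA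
  obtain ⟨k, hk⟩ := Subgroup.ne_bot_iff_exists_ne_one.1 hK1
  have hkK : (k : Γ) ∈ K := k.2
  have hk1 : (k : Γ) ≠ 1 := fun h => hk (Subtype.ext h)
  have hKfin : Finite K := hKf
  have ho : (k : Γ) ^ Nat.card K = 1 := by
    have h5 : k ^ Nat.card K = 1 := pow_card_eq_one'
    exact congrArg (fun z : K => (z : Γ)) h5
  exact zp (tri_of hab (hak _ hkK) (hbk _ hkK) hi hk1 Nat.card_pos ho) hS

end Pool.Agent.Helper54.NW
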