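import Pool.Agent.Helper61.NW.Goals2

/-!
# Project NW+: line systems from a permutation
-/

set_option autoImplicit false

namespace Pool.Agent.Helper54.NW

open Pool.Agent.Helper52.Wq2
open Pool.Agent.Helper61.NW

universe u

theorem cay_left {Γ : Type u} [Group Γ] (S : Set Γ) (c a b : Γ) :
    (cay S).Adj (c * a) (c * b) ↔ (cay S).Adj a b := by
  unfold cay
  rw [SimpleGraph.fromRel_adj, SimpleGraph.fromRel_adj]
  have e1 : ∀ a b : Γ, (c * a)⁻¹ * (c * b) = a⁻¹ * b := by intro a b; group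
  rw [e1, e1]
  constructor
  · rintro ⟨h1, h2⟩
    exact ⟨fun h => h1 (by rw [h]), h2⟩
  · rintro ⟨h1, h2⟩
    exact ⟨fun h => h1 (mul_left_cancel h), h2⟩

theorem cay_mul {Γ : Type u} [Group Γ] {S : Set Γ} (hS : IsGen S) (a t : Γ) (ht : t ∈ S) :
    (cay S).Adj a (a * t) := by
  unfold cay
  rw [SimpleGraph.fromRel_adj]
  refine ⟨fun e => ?_, Or.inl ?_⟩
  · have : t = 1 := by
      have := congrArg (fun x => a⁻¹ * x) e
      simpa using this.symm
    exact hS.2.2 (this ▸ ht)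
  · rwa [inv_mul_cancel_left]

theorem cay_of {Γ : Type u} [Group Γ] {S : Set Γ} {a b : Γ} (h : (cay S).Adj a b) :
    (∃ t ∈ S, b = a * t) ∨ ∃ t ∈ S, a = b * t := by
  unfold cay at h
  rw [SimpleGraph.fromRel_adj] at h
  rcases h.2 with h | h
  · exact Or.inl ⟨_, h, by group⟩
  · exact Or.inr ⟨_, h, by group⟩

theorem cay_connected {Γ : Type u} [Group Γ] {S : Set Γ} (hS : IsGen S) :
    Conn (cay S) Set.univ := by
  refine ⟨⟨1, trivial⟩, ?_⟩
  intro A _ hne hcl
  have h2 : ∀ y : Γ, y ∈ Subgroup.closure S → ∀ g : Γ, g ∈ A ↔ g * y ∈ A := by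
    intro y hy
    induction hy using Subgroup.closure_induction with
    | mem t ht =>
      intro g
      exact ⟨fun h => hcl g h _ trivial (cay_mul hS g t ht),
        fun h => hcl _ h _ trivial (cay_mul hS g t ht).symm⟩
    | one => intro g; rw [mul_one]
    | mul x y _ _ hx hy => intro g; rw [hx g, hy (g * x), mul_assoc]
    | inv x _ hx => intro g; rw [hx (g * x⁻¹), inv_mul_cancel_right]
  obtain ⟨g, hg⟩ := hne
  intro x _
  have h3 := (h2 (g⁻¹ * x) (by rw [hS.1]; trivial) g).1 hg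
  rwa [mul_inv_cancel_left] at h3

/-- Lines as orbits of a permutation. -/
structure Phi {Γ : Type u} [Group Γ] (S : Set Γ) (X : Γ → ℤ) (φ : Equiv.Perm Γ) (H : ℤ)
    (m : ℕ) : Prop where
  Hpos : 0 < H
  up : ∀ g, X (φ g) = X g + H
  adj : ∀ g, (cay S).Adj g (φ g)
  near : ∀ g t, t ∈ S → |X (g * t) - X g| ≤ H
  fin : {g | 0 ≤ X g ∧ X g < H}.Finite
  mpos : 0 < m
  per : ∃ c : Γ, ∀ g, c * g = (φ ^ m) g
  tr : ∀ g g' : Γ, ∃ (x : Γ) (e : ℤ), (e = 1 ∨ e = -1) ∧ (∀ y, x * φ y = (φ ^ e) (x * y)) ∧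
    ∃ k : ℤ, x * g = (φ ^ k) g'

variable {Γ : Type u} [Group Γ] {S : Set Γ} {X : Γ → ℤ} {φ : Equiv.Perm Γ} {H : ℤ} {m : ℕ}

theorem Phi.Xz (P : Phi S X φ H m) (g : Γ) (k : ℤ) : X ((φ ^ k) g) = X g + k * H := by
  have hn : ∀ (k : ℕ) (g : Γ), X ((φ ^ k) g) = X g + k * H := by
    intro k
    induction k with
    | zero => intro g; simp
    | succ k ih =>
      intro g
      rw [pow_succ', Equiv.Perm.mul_apply, P.up, ih]
      push_cast
      ring
  obtain ⟨j, rfl | rfl⟩ := k.eq_nat_or_neg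
  · rw [zpow_natCast, hn]
  · have h1 := hn j ((φ ^ (-(j : ℤ))) g)
    have h2 : (φ ^ j) ((φ ^ (-(j : ℤ))) g) = g := by
      rw [zpow_neg, zpow_natCast]
      exact Equiv.apply_symm_apply (φ ^ j) g
    rw [h2] at h1
    linarith

theorem ediv_near {H a b : ℤ} (hH : 0 < H) (h : |a - b| ≤ H) : |b / H - a / H| ≤ 1 := by
  rw [abs_le] at h
  have e1 : ∀ a : ℤ, (a + H) / H = a / H + 1 := fun a => by
    have := Int.add_mul_ediv_right a 1 hH.ne'
    rwa [one_mul] at this
  have h1 : a / H ≤ b / H + 1 := by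
    rw [← e1]
    exact Int.ediv_le_ediv hH (by omega)
  have h2 : b / H ≤ a / H + 1 := by
    rw [← e1]
    exact Int.ediv_le_ediv hH (by omega)
  rw [abs_le]
  omega

theorem phi_lsys (P : Phi S X φ H m) (hS : IsGen S) :
    ∃ G : SimpleGraph (ℤ × Fin (Nat.card {g // 0 ≤ X g ∧ X g < H})),
      Lsys (Nat.card {g // 0 ≤ X g ∧ X g < H}) m G ∧ Nonempty (cay S ≃g G) := by
  have hfin : Finite {g // 0 ≤ X g ∧ X g < H} := P.fin
  have hH := P.Hpos
  let pos : Γ → ℤ := fun g => X g / H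
  have hpos : ∀ (g : Γ) (k : ℤ), pos ((φ ^ k) g) = pos g + k := by
    intro g k
    show X ((φ ^ k) g) / H = X g / H + k
    rw [P.Xz, Int.add_mul_ediv_right _ _ hH.ne']
  let rep : Γ → {g // 0 ≤ X g ∧ X g < H} := fun g => ⟨(φ ^ (-(pos g))) g, by
    rw [P.Xz]
    have h1 := Int.emod_add_mul_ediv (X g) H
    have h2 := Int.emod_nonneg (X g) hH.ne'
    have h3 := Int.emod_lt_of_pos (X g) hH
    have h4 : X g + -(pos g) * H = X g % H := by
      show X g + -(X g / H) * H = X g % H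
      linarith [mul_comm H (X g / H)]
    rw [h4]
    exact ⟨h2, h3⟩⟩
  have hzz : ∀ (a b : ℤ) (g : Γ), (φ ^ a) ((φ ^ b) g) = (φ ^ (a + b)) g := by
    intro a b g
    rw [zpow_add, Equiv.Perm.mul_apply]
  have hrep : ∀ g, (φ ^ (pos g)) (rep g : Γ) = g := by
    intro g
    show (φ ^ (pos g)) ((φ ^ (-(pos g))) g) = g
    rw [hzz, add_neg_cancel, zpow_zero, Equiv.Perm.one_apply]
  have hrz : ∀ (g : Γ) (k : ℤ), rep ((φ ^ k) g) = rep g := by
    intro g k
    apply Subtype.ext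
    show (φ ^ (-(pos ((φ ^ k) g)))) ((φ ^ k) g) = (φ ^ (-(pos g))) g
    rw [hpos, hzz]
    congr 2
    ring
  have hp0 : ∀ b : {g // 0 ≤ X g ∧ X g < H}, pos b = 0 := by
    intro b
    exact Int.ediv_eq_zero_of_lt b.2.1 b.2.2
  have hr0 : ∀ b : {g // 0 ≤ X g ∧ X g < H}, rep b = b := by
    intro b
    apply Subtype.ext
    show (φ ^ (-(pos b))) (b : Γ) = b
    rw [hp0, neg_zero, zpow_zero, Equiv.Perm.one_apply]
  let E := Finite.equivFin {g // 0 ≤ X g ∧ X g < H}
  let Φ : Γ ≃ ℤ × Fin (Nat.card {g // 0 ≤ X g ∧ X g < H}) :=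
    { toFun := fun g => (pos g, E (rep g))
      invFun := fun v => (φ ^ v.1) (E.symm v.2 : Γ)
      left_inv := by
        intro g
        show (φ ^ (pos g)) (E.symm (E (rep g)) : Γ) = g
        rw [Equiv.symm_apply_apply, hrep]
      right_inv := by
        rintro ⟨k, j⟩
        show (pos ((φ ^ k) (E.symm j : Γ)), E (rep ((φ ^ k) (E.symm j : Γ)))) = (k, j)
        rw [hpos, hrz, hp0, hr0, Equiv.apply_symm_apply, zero_add] }
  have hsymm : ∀ a j, Φ.symm (a, j) = (φ ^ a) (E.symm j : Γ) := fun a j => rfl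
  have happ : ∀ g, Φ g = (pos g, E (rep g)) := fun g => rfl
  have hadj : ∀ u v, ((cay S).comap Φ.symm).Adj u v ↔ (cay S).Adj (Φ.symm u) (Φ.symm v) :=
    fun u v => Iff.rfl
  refine ⟨(cay S).comap Φ.symm, ⟨?_, P.mpos, ?_, ?_, ?_, ?_, ?_⟩,
    ⟨(SimpleGraph.Iso.comap Φ.symm (cay S)).symm⟩⟩
  · have : Nonempty {g // 0 ≤ X g ∧ X g < H} := ⟨rep 1⟩
    exact Nat.card_pos
  · intro a j
    rw [hadj, hsymm, hsymm]
    have h1 := P.adj ((φ ^ a) (E.symm j : Γ))
    have h2 : φ ((φ ^ a) (E.symm j : Γ)) = (φ ^ (a + 1)) (E.symm j : Γ) := by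
      have := hzz 1 a (E.symm j : Γ)
      rw [zpow_one, add_comm] at this
      exact this
    rwa [h2] at h1
  · intro a b i j h
    rw [hadj] at h
    have h1 : ∀ u v, (cay S).Adj u v → |pos u - pos v| ≤ 1 := by
      intro u v huv
      rcases cay_of huv with ⟨t, ht, rfl⟩ | ⟨t, ht, rfl⟩
      · exact ediv_near hH (P.near u t ht)
      · rw [abs_sub_comm]
        exact ediv_near hH (P.near v t ht)
    have h2 := h1 _ _ h
    rw [hsymm, hsymm, hpos, hpos, hp0, hp0, zero_add, zero_add] at h2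
    exact h2
  · intro a b i j
    obtain ⟨c, hc⟩ := P.per
    have h1 : ∀ a i, Φ.symm (a + m, i) = c * Φ.symm (a, i) := by
      intro a i
      rw [hsymm, hsymm, hc, ← zpow_natCast φ m, hzz, add_comm]
    rw [hadj, hadj, h1, h1, cay_left]
  · have h1 := (cay_connected hS).image (G' := (cay S).comap Φ.symm) Φ (by
      intro a _ b _ hab
      right
      rw [hadj, Equiv.symm_apply_apply, Equiv.symm_apply_apply]
      exact hab)
    rwa [Set.image_univ, Φ.surjective.range_eq] at h1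
  · intro i j
    obtain ⟨x, e, he, hx, k, hk⟩ := P.tr (E.symm i : Γ) (E.symm j : Γ)
    have hxz : ∀ (a : ℤ) (y : Γ), x * (φ ^ a) y = (φ ^ (e * a)) (x * y) := by
      intro a y
      have h1 : SemiconjBy (Equiv.mulLeft x) φ (φ ^ e) := by
        ext y
        exact hx y
      have h2 := h1.zpow_right a
      have h3 := DFunLike.congr_fun h2 y
      rw [← zpow_mul] at h3
      exact h3
    let f : ((cay S).comap Φ.symm) ≃g ((cay S).comap Φ.symm) :=
      { toEquiv := Φ.symm.trans ((Equiv.mulLeft x).trans Φ)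
        map_rel_iff' := by
          intro u v
          show (cay S).Adj (Φ.symm (Φ (x * Φ.symm u))) (Φ.symm (Φ (x * Φ.symm v))) ↔ _
          rw [Equiv.symm_apply_apply, Equiv.symm_apply_apply, cay_left]
          exact Iff.rfl }
    have hf : ∀ a k, f (a, k) = (e * a + pos (x * (E.symm k : Γ)),
        E (rep (x * (E.symm k : Γ)))) := by
      intro a k
      show Φ (x * Φ.symm (a, k)) = _
      rw [hsymm, hxz, happ, hpos, hrz, add_comm]
    have hsur : Function.Surjective (fun k => E (rep (x * (E.symm k : Γ)))) := by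
      intro j'
      obtain ⟨⟨a, k⟩, hak⟩ := f.surjective (0, j')
      rw [hf] at hak
      exact ⟨k, congrArg Prod.snd hak⟩
    refine ⟨f, Equiv.ofBijective _ (Finite.surjective_iff_bijective.1 hsur), e,
      fun k => pos (x * (E.symm k : Γ)), he, ?_, ?_⟩
    · show E (rep (x * (E.symm i : Γ))) = j
      rw [hk, hrz, hr0, Equiv.apply_symm_apply]
    · intro a k
      exact hf a k

end Pool.Agent.Helper54.NW
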