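import Pool.Agent.Helper54.NW.PHI
import Pool.Agent.Helper52.Wq2.Stars

/-!
# Groups which contain `ℤ² × C`, `C` a nontrivial cyclic group
-/

set_option autoImplicit false

namespace Pool.Agent.Helper54.NW

open Pool.Agent.Helper52.Wq2

universe u

/-- Walks of length `n`. -/
def Wk {V : Type*} (G : SimpleGraph V) : ℕ → V → V → Prop
  | 0, x, y => x = y
  | n + 1, x, y => ∃ z, Wk G n x z ∧ G.Adj z y

theorem wk_add {V : Type*} {G : SimpleGraph V} {n m : ℕ} {x y z : V} (h1 : Wk G n x y)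
    (h2 : Wk G m y z) : Wk G (n + m) x z := by
  induction m generalizing z with
  | zero =>
    have : y = z := h2
    rw [← this]
    exact h1
  | succ m ih =>
    obtain ⟨w, h3, h4⟩ := h2
    exact ⟨w, ih h3, h4⟩

theorem wk_map {V : Type*} {G : SimpleGraph V} (f : V → V)
    (hf : ∀ a b, G.Adj a b → G.Adj (f a) (f b)) {n : ℕ} {x y : V} (h : Wk G n x y) :
    Wk G n (f x) (f y) := by
  induction n generalizing y with
  | zero =>
    have : x = y := h
    rw [this]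
    rfl
  | succ n ih =>
    obtain ⟨w, h3, h4⟩ := h
    exact ⟨f w, ih h3, hf _ _ h4⟩

theorem wk_fun {V : Type*} {G : SimpleGraph V} {n : ℕ} {x y : V} (h : Wk G n x y) :
    ∃ f : ℕ → V, f 0 = x ∧ f n = y ∧ ∀ i < n, G.Adj (f i) (f (i + 1)) := by
  induction n generalizing y with
  | zero => exact ⟨fun _ => x, rfl, h, fun i hi => absurd hi (by omega)⟩
  | succ n ih =>
    obtain ⟨w, h3, h4⟩ := h
    obtain ⟨f, f0, fn, fa⟩ := ih h3
    refine ⟨fun i => if i ≤ n then f i else y, ?_, ?_, ?_⟩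
    · show (if 0 ≤ n then f 0 else y) = x
      rw [if_pos (Nat.zero_le _), f0]
    · show (if n + 1 ≤ n then f (n + 1) else y) = y
      rw [if_neg (by omega)]
    · intro i hi
      show G.Adj (if i ≤ n then f i else y) (if i + 1 ≤ n then f (i + 1) else y)
      rcases Nat.lt_or_ge i n with h' | h'
      · rw [if_pos (by omega), if_pos (by omega)]
        exact fa i h'
      · have : i = n := by omega
        rw [if_pos (by omega), if_neg (by omega), this, fn]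
        exact h4

theorem fun_wk {V : Type*} {G : SimpleGraph V} {N : ℕ} {f : ℕ → V}
    (h : ∀ i < N, G.Adj (f i) (f (i + 1))) (r n : ℕ) (hr : r + n ≤ N) :
    Wk G n (f r) (f (r + n)) := by
  induction n with
  | zero => rfl
  | succ n ih => exact ⟨f (r + n), ih (by omega), h (r + n) (by omega)⟩

theorem wk_conn {Γ : Type u} [Group Γ] {S : Set Γ} (hS : IsGen S) (x y : Γ) :
    ∃ n, Wk (cay S) n x y := by
  have h1 : ∀ z : Γ, z ∈ Subgroup.closure S → ∀ x : Γ, ∃ n, Wk (cay S) n x (x * z) := by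
    intro z hz
    induction hz using Subgroup.closure_induction'' with
    | mem t ht => intro x; exact ⟨1, x, rfl, cay_mul hS x t ht⟩
    | inv_mem t ht => intro x; exact ⟨1, x, rfl, cay_mul hS x _ (hS.2.1 t ht)⟩
    | one => intro x; exact ⟨0, (mul_one x).symm⟩
    | mul a b _ _ ha hb =>
      intro x
      obtain ⟨n, hn⟩ := ha x
      obtain ⟨m, hm⟩ := hb (x * a)
      rw [mul_assoc] at hm
      exact ⟨n + m, wk_add hn hm⟩
  obtain ⟨n, hn⟩ := h1 (x⁻¹ * y) (by rw [hS.1]; trivial) x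
  rw [mul_inv_cancel_left] at hn
  exact ⟨n, hn⟩

/-- A shortest path between two sets. -/
theorem bridge {V : Type*} {G : SimpleGraph V} (hG : ∀ x y, ∃ n, Wk G n x y) {A B : Set V}
    (hA : A.Nonempty) (hB : B.Nonempty) (hAB : ∀ x, x ∈ A → x ∈ B → False) :
    ∃ (n : ℤ) (f : ℤ → V), 0 < n ∧ f 0 ∈ A ∧ f n ∈ B ∧
      (∀ i, 0 ≤ i → i < n → G.Adj (f i) (f (i + 1))) ∧
      ∀ i, 0 < i → i < n → f i ∉ A ∧ f i ∉ B := by
  classical
  have hex : ∃ n : ℕ, ∃ f : ℕ → V, f 0 ∈ A ∧ f n ∈ B ∧ ∀ i < n, G.Adj (f i) (f (i + 1)) := by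
    obtain ⟨x, hx⟩ := hA
    obtain ⟨y, hy⟩ := hB
    obtain ⟨n, hn⟩ := hG x y
    obtain ⟨f, h1, h2, h3⟩ := wk_fun hn
    exact ⟨n, f, by rw [h1]; exact hx, by rw [h2]; exact hy, h3⟩
  obtain ⟨f, f0, fn, fa⟩ := Nat.find_spec hex
  have hmin : ∀ m < Nat.find hex, ¬ ∃ f : ℕ → V, f 0 ∈ A ∧ f m ∈ B ∧
      ∀ i < m, G.Adj (f i) (f (i + 1)) := fun m hm => Nat.find_min hex hm
  generalize Nat.find hex = n at f0 fn fa hmin
  have hn : 0 < n := by
    rcases Nat.eq_zero_or_pos n with h | h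
    · rw [h] at fn
      exact (hAB _ f0 fn).elim
    · exact h
  refine ⟨n, fun i => f i.toNat, by exact_mod_cast hn, f0, ?_, ?_, ?_⟩
  · show f ((n : ℤ).toNat) ∈ B
    rw [Int.toNat_natCast]
    exact fn
  · intro i h0 h1
    show G.Adj (f i.toNat) (f (i + 1).toNat)
    have : (i + 1).toNat = i.toNat + 1 := by omega
    rw [this]
    exact fa _ (by omega)
  · intro i h0 h1
    refine ⟨fun h => ?_, fun h => ?_⟩
    · refine hmin (n - i.toNat) (by omega) ⟨fun s => f (i.toNat + s), h, ?_, ?_⟩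
      · show f (i.toNat + (n - i.toNat)) ∈ B
        have : i.toNat + (n - i.toNat) = n := by omega
        rw [this]
        exact fn
      · intro s hs
        exact fa (i.toNat + s) (by omega)
    · exact hmin i.toNat (by omega) ⟨f, f0, h, fun s hs => fa s (by omega)⟩

theorem conn_meet {V : Type*} {G : SimpleGraph V} {s t : Set V} (hs : Conn G s) (ht : Conn G t)
    {a : V} (h1 : a ∈ s) (h2 : a ∈ t) : Conn G (s ∪ t) := by
  refine ⟨⟨a, Or.inl h1⟩, ?_⟩
  intro A hA hne hcl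
  have g1 : (∃ x ∈ A, x ∈ s) → s ⊆ A := by
    rintro ⟨x, hx, hxs⟩ y hy
    exact (hs.2 (A ∩ s) Set.inter_subset_right ⟨x, hx, hxs⟩
      (fun u hu v hv huv => ⟨hcl u hu.1 v (Or.inl hv) huv, hv⟩) hy).1
  have g2 : (∃ x ∈ A, x ∈ t) → t ⊆ A := by
    rintro ⟨x, hx, hxs⟩ y hy
    exact (ht.2 (A ∩ t) Set.inter_subset_right ⟨x, hx, hxs⟩
      (fun u hu v hv huv => ⟨hcl u hu.1 v (Or.inr hv) huv, hv⟩) hy).1
  have g3 : a ∈ A := by
    obtain ⟨x, hx⟩ := hne
    rcases hA hx with h | h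
    · exact g1 ⟨x, hx, h⟩ h1
    · exact g2 ⟨x, hx, h⟩ h2
  rintro x (hx | hx)
  · exact g1 ⟨a, g3, h1⟩ hx
  · exact g2 ⟨a, g3, h2⟩ hx

theorem conn_chainZ {V : Type*} {G : SimpleGraph V} (Q : ℤ → Set V) (hQ : ∀ i, Conn G (Q i))
    (hm : ∀ i, ∃ a, a ∈ Q i ∧ a ∈ Q (i + 1)) : Conn G {v | ∃ i, v ∈ Q i} := by
  refine ⟨?_, ?_⟩
  · obtain ⟨a, ha⟩ := (hQ 0).1
    exact ⟨a, 0, ha⟩
  · intro A hA hne hcl
    have g1 : ∀ i, (∃ x ∈ A, x ∈ Q i) → Q i ⊆ A := by
      rintro i ⟨x, hx, hxs⟩ y hy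
      exact ((hQ i).2 (A ∩ Q i) Set.inter_subset_right ⟨x, hx, hxs⟩
        (fun u hu v hv huv => ⟨hcl u hu.1 v ⟨i, hv⟩ huv, hv⟩) hy).1
    obtain ⟨x, hx⟩ := hne
    obtain ⟨i₀, hi₀⟩ := hA hx
    have up : ∀ n : ℕ, Q (i₀ + n) ⊆ A := by
      intro n
      induction n with
      | zero => exact g1 _ ⟨x, hx, by simpa using hi₀⟩
      | succ n ih =>
        obtain ⟨a, h1, h2⟩ := hm (i₀ + n)
        have e : i₀ + ((n + 1 : ℕ) : ℤ) = i₀ + n + 1 := by push_cast; ring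
        rw [e]
        exact g1 _ ⟨a, ih h1, h2⟩
    have dn : ∀ n : ℕ, Q (i₀ - n) ⊆ A := by
      intro n
      induction n with
      | zero => exact g1 _ ⟨x, hx, by simpa using hi₀⟩
      | succ n ih =>
        obtain ⟨a, h1, h2⟩ := hm (i₀ - ((n + 1 : ℕ) : ℤ))
        have e : i₀ - ((n + 1 : ℕ) : ℤ) + 1 = i₀ - n := by push_cast; ring
        rw [e] at h2
        exact g1 _ ⟨a, ih h2, h1⟩
    rintro y ⟨i, hi⟩
    rcases le_total i₀ i with h | h
    · have := up (i - i₀).toNat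
      have e : i₀ + ((i - i₀).toNat : ℤ) = i := by omega
      rw [e] at this
      exact this hi
    · have := dn (i₀ - i).toNat
      have e : i₀ - ((i₀ - i).toNat : ℤ) = i := by omega
      rw [e] at this
      exact this hi

theorem conn_starm {V ι : Type*} {G : SimpleGraph V} {s : Set V} (T : ι → Set V)
    (hs : Conn G s) (hT : ∀ i, Conn G (T i)) (ha : ∀ i, ∃ a, a ∈ s ∧ a ∈ T i) :
    Conn G {v | v ∈ s ∨ ∃ i, v ∈ T i} := by
  refine ⟨?_, ?_⟩
  · obtain ⟨a, ha⟩ := hs.1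
    exact ⟨a, Or.inl ha⟩
  · intro A hA hne hcl
    have h1 : (∃ a ∈ A, a ∈ s) → s ⊆ A := by
      rintro ⟨a, haA, has⟩ x hx
      exact (hs.2 (A ∩ s) Set.inter_subset_right ⟨a, haA, has⟩
        (fun u hu v hv huv => ⟨hcl u hu.1 v (Or.inl hv) huv, hv⟩) hx).1
    have h2 : ∀ i, (∃ a ∈ A, a ∈ T i) → T i ⊆ A := by
      rintro i ⟨a, haA, has⟩ x hx
      exact ((hT i).2 (A ∩ T i) Set.inter_subset_right ⟨a, haA, has⟩
        (fun u hu v hv huv => ⟨hcl u hu.1 v (Or.inr ⟨i, hv⟩) huv, hv⟩) hx).1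
    have h3 : s ⊆ A := by
      obtain ⟨a, haA⟩ := hne
      rcases hA haA with has | ⟨i, hai⟩
      · exact h1 ⟨a, haA, has⟩
      · obtain ⟨u, hu, hv⟩ := ha i
        exact h1 ⟨u, h2 i ⟨a, haA, hai⟩ hv, hu⟩
    rintro x (hx | ⟨i, hx⟩)
    · exact h3 hx
    · obtain ⟨u, hu, hv⟩ := ha i
      exact h2 i ⟨u, h3 hu, hv⟩ hx

/-- The elements of the abelian subgroup. -/
def Fe {Γ : Type u} [Group Γ] (a b k : Γ) (i j l : ℤ) : Γ := a ^ i * b ^ j * k ^ l

section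
variable {Γ : Type u} [Group Γ] {a b k : Γ}

theorem fe_mul (hab : a * b = b * a) (hak : a * k = k * a) (hbk : b * k = k * b)
    (i j l i' j' l' : ℤ) : Fe a b k i j l * Fe a b k i' j' l' =
      Fe a b k (i + i') (j + j') (l + l') := by
  have c1 : Commute (a ^ i') (b ^ j) := (show Commute a b from hab).zpow_zpow _ _
  have c2 : Commute (a ^ i') (k ^ l) := (show Commute a k from hak).zpow_zpow _ _
  have c3 : Commute (b ^ j') (k ^ l) := (show Commute b k from hbk).zpow_zpow _ _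
  unfold Fe
  rw [zpow_add, zpow_add, zpow_add]
  calc a ^ i * b ^ j * k ^ l * (a ^ i' * b ^ j' * k ^ l')
      = a ^ i * b ^ j * (k ^ l * a ^ i') * b ^ j' * k ^ l' := by group
    _ = a ^ i * b ^ j * (a ^ i' * k ^ l) * b ^ j' * k ^ l' := by rw [c2.eq]
    _ = a ^ i * (b ^ j * a ^ i') * (k ^ l * b ^ j') * k ^ l' := by group
    _ = a ^ i * (a ^ i' * b ^ j) * (b ^ j' * k ^ l) * k ^ l' := by rw [c1.eq, c3.eq]
    _ = _ := by group

end

end Pool.Agent.Helper54.NW
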