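import Pool.Agent.Helper54.NW.ZP

/-!
# Groups which contain `ℤ² × C`: the line
-/

set_option autoImplicit false

namespace Pool.Agent.Helper54.NW

open Pool.Agent.Helper52.Wq2

universe u

section
variable {Γ : Type u} [Group Γ] {a b k : Γ}

/-- The hypotheses on the commuting elements. -/
structure Tri (a b k : Γ) : Prop where
  ab : a * b = b * a
  ak : a * k = k * a
  bk : b * k = k * b
  ind : ∀ i j l : ℤ, Fe a b k i j l = 1 → i = 0 ∧ j = 0
  k1 : k ≠ 1

theorem Tri.mul (T : Tri a b k) (i j l i' j' l' : ℤ) : Fe a b k i j l * Fe a b k i' j' l' =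
      Fe a b k (i + i') (j + j') (l + l') := fe_mul T.ab T.ak T.bk _ _ _ _ _ _

theorem fe_zero : Fe a b k 0 0 0 = 1 := by
  unfold Fe
  simp

theorem Tri.inv (T : Tri a b k) (i j l : ℤ) : (Fe a b k i j l)⁻¹ = Fe a b k (-i) (-j) (-l) := by
  rw [inv_eq_iff_mul_eq_one, T.mul, add_neg_cancel, add_neg_cancel, add_neg_cancel, fe_zero]

theorem Tri.zpow (T : Tri a b k) (i j l n : ℤ) : (Fe a b k i j l) ^ n =
    Fe a b k (n * i) (n * j) (n * l) := by
  have hn : ∀ n : ℕ, (Fe a b k i j l) ^ n = Fe a b k (n * i) (n * j) (n * l) := by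
    intro n
    induction n with
    | zero => rw [pow_zero]; simp [fe_zero]
    | succ n ih =>
      rw [pow_succ, ih, T.mul]
      congr 1 <;> push_cast <;> ring
  obtain ⟨m, rfl | rfl⟩ := n.eq_nat_or_neg
  · rw [zpow_natCast, hn]
  · rw [zpow_neg, zpow_natCast, hn, T.inv]
    congr 1 <;> ring

theorem Tri.comm (T : Tri a b k) (i j l i' j' l' : ℤ) : Fe a b k i j l * Fe a b k i' j' l' =
    Fe a b k i' j' l' * Fe a b k i j l := by
  rw [T.mul, T.mul, add_comm i, add_comm j, add_comm l]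

theorem Tri.eq (T : Tri a b k) {i j l i' j' l' : ℤ}
    (h : Fe a b k i j l = Fe a b k i' j' l') : i = i' ∧ j = j' := by
  have h1 : Fe a b k i j l * (Fe a b k i' j' l')⁻¹ = 1 := by rw [h, mul_inv_cancel]
  rw [T.inv, T.mul] at h1
  obtain ⟨h2, h3⟩ := T.ind _ _ _ h1
  omega

/-- The line: `L (y + n) = u L y`, adjacent consecutive vertices, and the translates are disjoint. -/
theorem line (T : Tri a b k) {S : Set Γ} (hS : IsGen S) :
    ∃ (u1 u2 u3 : ℤ) (n : ℤ) (L : ℤ → Γ), (u1 ≠ 0 ∨ u2 ≠ 0) ∧ 0 < n ∧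
      (∀ y, (cay S).Adj (L y) (L (y + 1))) ∧
      (∀ y d : ℤ, (Fe a b k u1 u2 u3) ^ d * L y = L (y + d * n)) ∧
      ∀ i j l y y', Fe a b k i j l * L y = L y' → ∃ d : ℤ, Fe a b k i j l =
        (Fe a b k u1 u2 u3) ^ d ∧ y' = y + d * n := by
  classical
  have hex : ∃ n : ℕ, ∃ (x : Γ) (i j l : ℤ), (i ≠ 0 ∨ j ≠ 0) ∧
      Wk (cay S) n x (Fe a b k i j l * x) := by
    obtain ⟨n, hn⟩ := wk_conn hS (1 : Γ) (Fe a b k 1 0 0 * 1)
    exact ⟨n, 1, 1, 0, 0, Or.inl one_ne_zero, hn⟩
  obtain ⟨x₀, u1, u2, u3, hu, hw⟩ := Nat.find_spec hex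
  have hmin : ∀ m < Nat.find hex, ¬ ∃ (x : Γ) (i j l : ℤ), (i ≠ 0 ∨ j ≠ 0) ∧
      Wk (cay S) m x (Fe a b k i j l * x) := fun m hm => Nat.find_min hex hm
  generalize Nat.find hex = n at hw hmin
  have hmap : ∀ (g : Γ) {m : ℕ} {x y : Γ}, Wk (cay S) m x y → Wk (cay S) m (g * x) (g * y) :=
    fun g m x y h => wk_map (fun z => g * z) (fun p q hpq => (cay_left S g p q).2 hpq) h
  have hn : 0 < n := by
    rcases Nat.eq_zero_or_pos n with h | h
    · rw [h] at hw
      have h1 : x₀ = Fe a b k u1 u2 u3 * x₀ := hw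
      have h2 : Fe a b k u1 u2 u3 = 1 := by
        have := mul_right_cancel ((one_mul x₀).trans h1)
        exact this.symm
      have := T.ind _ _ _ h2
      rcases hu with hu | hu
      · exact absurd this.1 hu
      · exact absurd this.2 hu
    · exact h
  obtain ⟨P, P0, Pn, Pa⟩ := wk_fun hw
  have hPw : ∀ r s, r ≤ s → s ≤ n → Wk (cay S) (s - r) (P r) (P s) := by
    intro r s h1 h2
    have := fun_wk Pa r (s - r) (by omega)
    have e : r + (s - r) = s := by omega
    rwa [e] at this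
  have star' : ∀ (i j l : ℤ) (r s : ℕ), r ≤ s → s < n → Fe a b k i j l * P r = P s →
      Fe a b k i j l = 1 ∧ r = s := by
    intro i j l r s h1 h2 h3
    have h4 := hPw r s h1 (by omega)
    rw [← h3] at h4
    have h5 : i = 0 ∧ j = 0 := by
      by_contra hne
      refine hmin (s - r) (by omega) ⟨P r, i, j, l, ?_, h4⟩
      by_contra h6
      push Not at h6
      exact hne h6
    obtain ⟨rfl, rfl⟩ := h5
    have h6 : r = s := by
      by_contra hne
      have g1 := hmap (Fe a b k 0 0 l) (hPw 0 r (by omega) (by omega))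
      rw [h3] at g1
      have g2 := wk_add g1 (hPw s n (by omega) (le_refl _))
      rw [P0, Pn] at g2
      refine hmin (r - 0 + (n - s)) (by omega) ⟨Fe a b k 0 0 l * x₀, u1, u2, u3 - l, hu, ?_⟩
      have g3 : Fe a b k u1 u2 (u3 - l) * (Fe a b k 0 0 l * x₀) = Fe a b k u1 u2 u3 * x₀ := by
        rw [← mul_assoc, T.mul]
        congr 2 <;> ring
      rw [g3]
      exact g2
    subst h6
    refine ⟨?_, rfl⟩
    exact mul_right_cancel (h3.trans (one_mul _).symm)
  have star : ∀ (i j l : ℤ) (r s : ℕ), r < n → s < n → Fe a b k i j l * P r = P s →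
      Fe a b k i j l = 1 ∧ r = s := by
    intro i j l r s h1 h2 h3
    rcases le_total r s with h | h
    · exact star' i j l r s h h2 h3
    · have h4 : Fe a b k (-i) (-j) (-l) * P s = P r := by
        rw [← T.inv, ← h3, inv_mul_cancel_left]
      obtain ⟨h5, h6⟩ := star' _ _ _ s r h h1 h4
      refine ⟨?_, h6.symm⟩
      rw [← T.inv, inv_eq_one] at h5
      exact h5
  obtain ⟨u, hudef⟩ : ∃ u, u = Fe a b k u1 u2 u3 := ⟨_, rfl⟩
  rw [← hudef] at Pn
  have hnz : (n : ℤ) ≠ 0 := by omega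
  have hnp : (0 : ℤ) < n := by omega
  refine ⟨u1, u2, u3, n, fun y => u ^ (y / n) * P (y % n).toNat, hu, hnp, ?_, ?_, ?_⟩
  · intro y
    show (cay S).Adj (u ^ (y / n) * P (y % n).toNat) (u ^ ((y + 1) / n) * P ((y + 1) % n).toNat)
    have h1 := Int.emod_nonneg y hnz
    have h2 := Int.emod_lt_of_pos y hnp
    have h3 := Int.emod_add_mul_ediv y n
    rcases lt_or_ge (y % n + 1) n with h | h
    · have e1 : (y + 1) / n = y / n ∧ (y + 1) % n = y % n + 1 :=
        (Int.ediv_emod_unique hnp).2 ⟨by linarith, by omega, h⟩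
      rw [e1.1, e1.2, cay_left]
      have e2 : (y % n + 1).toNat = (y % n).toNat + 1 := by omega
      rw [e2]
      exact Pa _ (by omega)
    · have e1 : (y + 1) / n = y / n + 1 ∧ (y + 1) % n = 0 :=
        (Int.ediv_emod_unique hnp).2 ⟨by
          have : y % n = n - 1 := by omega
          rw [mul_add, mul_one]
          linarith, le_refl _, hnp⟩
      rw [e1.1, e1.2, zpow_add_one, mul_assoc, cay_left]
      have e3 := Pa (n - 1) (by omega)
      have e4 : n - 1 + 1 = n := by omega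
      rw [e4, Pn] at e3
      have e5 : (y % n).toNat = n - 1 := by omega
      rw [e5, Int.toNat_zero, P0]
      exact e3
  · intro y d
    show (Fe a b k u1 u2 u3) ^ d * (u ^ (y / n) * P (y % n).toNat) =
      u ^ ((y + d * n) / n) * P ((y + d * n) % n).toNat
    rw [← hudef, Int.add_mul_ediv_right _ _ hnz, Int.add_mul_emod_self_right, ← mul_assoc,
      ← zpow_add, add_comm d]
  · intro i j l y y' h
    change Fe a b k i j l * (u ^ (y / n) * P (y % n).toNat) =
      u ^ (y' / n) * P (y' % n).toNat at h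
    have h1 := Int.emod_nonneg y hnz
    have h2 := Int.emod_lt_of_pos y hnp
    have h1' := Int.emod_nonneg y' hnz
    have h2' := Int.emod_lt_of_pos y' hnp
    have h4 : (u ^ (y' / n))⁻¹ * Fe a b k i j l * u ^ (y / n) * P (y % n).toNat =
        P (y' % n).toNat := by
      rw [mul_assoc, mul_assoc, h, inv_mul_cancel_left]
    have h5 : (u ^ (y' / n))⁻¹ * Fe a b k i j l * u ^ (y / n) =
        Fe a b k (-(y' / n * u1) + i + y / n * u1) (-(y' / n * u2) + j + y / n * u2)
          (-(y' / n * u3) + l + y / n * u3) := by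
      rw [hudef, T.zpow, T.zpow, T.inv, T.mul, T.mul]
    rw [h5] at h4
    obtain ⟨h6, h7⟩ := star _ _ _ _ _ (by omega) (by omega) h4
    rw [← h5] at h6
    refine ⟨y' / n - y / n, ?_, ?_⟩
    · rw [← hudef, zpow_sub]
      have h8 : (u ^ (y' / n))⁻¹ * (Fe a b k i j l * u ^ (y / n)) = 1 := by
        rw [← mul_assoc]; exact h6
      have h9 := (inv_mul_eq_one.1 h8)
      exact eq_mul_inv_of_mul_eq h9.symm
    · have g1 := Int.emod_add_mul_ediv y n
      have g2 := Int.emod_add_mul_ediv y' n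
      have g3 : y' % n = y % n := by omega
      rw [sub_mul]
      linarith [mul_comm (n : ℤ) (y / n), mul_comm (n : ℤ) (y' / n)]

end

end Pool.Agent.Helper54.NW
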