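import Pool.Agent.Helper54.NW.ZPA
import Pool.Agent.Helper52.Wq2.Stars

/-!
# Groups which contain `ℤ² × C`, `C` a nontrivial cyclic group: `StarZ ℕ` is a minor of every
Cayley graph
-/

set_option autoImplicit false

namespace Pool.Agent.Helper54.NW

open Pool.Agent.Helper52.Wq2

universe u

theorem zp_star {Γ : Type u} [Group Γ] {a b k : Γ} (T : Tri a b k) {S : Set Γ} (hS : IsGen S) :
    Mn (StarZ ℕ) (cay S) := by
  classical
  obtain ⟨u1, u2, u3, n, L, hu, hn, hLadj, hLu, hstar⟩ := line T hS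
  have hG := wk_conn hS
  have hdet : ∃ i j : ℤ, u1 * j - u2 * i ≠ 0 := by
    rcases hu with hu | hu
    · exact ⟨0, 1, by simpa using hu⟩
    · exact ⟨1, 0, by simpa using hu⟩
  -- the first bridge
  have hAB : ∀ x, x ∈ {x | ∃ i j l y, u1 * j - u2 * i = 0 ∧ x = Fe a b k i j l * L y} →
      x ∈ {x | ∃ i j l y, u1 * j - u2 * i ≠ 0 ∧ x = Fe a b k i j l * L y} → False := by
    rintro x ⟨i, j, l, y, h0, rfl⟩ ⟨i', j', l', y', h1, h2⟩
    have h3 : Fe a b k (-i' + i) (-j' + j) (-l' + l) * L y = L y' := by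
      rw [← T.mul, ← T.inv, mul_assoc, h2, inv_mul_cancel_left]
    obtain ⟨d, h4, -⟩ := hstar _ _ _ _ _ h3
    rw [T.zpow] at h4
    obtain ⟨h5, h6⟩ := T.eq h4
    apply h1
    have e1 : i' = i - d * u1 := by omega
    have e2 : j' = j - d * u2 := by omega
    rw [e1, e2]
    linear_combination h0
  obtain ⟨nb, f, hnb, ⟨i₁, j₁, l₁, yB0, hd1, hf0⟩, ⟨i₂, j₂, l₂, yB1, hd2, hfn⟩, hfa, hfi⟩ :=
    bridge hG (A := {x | ∃ i j l y, u1 * j - u2 * i = 0 ∧ x = Fe a b k i j l * L y})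
      (B := {x | ∃ i j l y, u1 * j - u2 * i ≠ 0 ∧ x = Fe a b k i j l * L y})
      ⟨_, 0, 0, 0, 0, by ring, rfl⟩ (by
        obtain ⟨i, j, hij⟩ := hdet
        exact ⟨_, i, j, 0, 0, hij, rfl⟩) hAB
  obtain ⟨v1, hv1⟩ : ∃ v1, v1 = -i₁ + i₂ := ⟨_, rfl⟩
  obtain ⟨v2, hv2⟩ : ∃ v2, v2 = -j₁ + j₂ := ⟨_, rfl⟩
  obtain ⟨v3, hv3⟩ : ∃ v3, v3 = -l₁ + l₂ := ⟨_, rfl⟩
  have hvd : u1 * v2 - u2 * v1 ≠ 0 := by
    rw [hv1, hv2]
    intro h
    apply hd2
    linear_combination h + hd1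
  obtain ⟨B, hB⟩ : ∃ B : ℤ → Γ, ∀ s, B s = (Fe a b k i₁ j₁ l₁)⁻¹ * f s := ⟨_, fun s => rfl⟩
  obtain ⟨W, hW⟩ : ∃ W : ℤ → ℤ → ℤ → Γ, ∀ e i g, W e i g =
    Fe a b k (i * v1 + g * u1) (i * v2 + g * u2) (e + i * v3 + g * u3) := ⟨_, fun e i g => rfl⟩
  have Wmul : ∀ e i g e' i' g', W e i g * W e' i' g' = W (e + e') (i + i') (g + g') := by
    intro e i g e' i' g'
    rw [hW, hW, hW, T.mul]
    congr 1 <;> ring
  have W0 : W 0 0 0 = 1 := by
    rw [hW]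
    simp [fe_zero]
  have Winv : ∀ e i g, (W e i g)⁻¹ = W (-e) (-i) (-g) := by
    intro e i g
    rw [inv_eq_iff_mul_eq_one, Wmul, add_neg_cancel, add_neg_cancel, add_neg_cancel, W0]
  have Wkey : ∀ e i g, W e i g = 1 → i = 0 ∧ g = 0 := by
    intro e i g h
    rw [hW] at h
    obtain ⟨h1, h2⟩ := T.ind _ _ _ h
    have h3 : i * (u1 * v2 - u2 * v1) = 0 := by linear_combination u1 * h2 - u2 * h1
    have h4 : i = 0 := by
      rcases mul_eq_zero.1 h3 with h | h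
      · exact h
      · exact absurd h hvd
    rw [h4, zero_mul, zero_add] at h1 h2
    refine ⟨h4, ?_⟩
    rcases hu with hu | hu
    · exact (mul_eq_zero.1 h1).resolve_right hu
    · exact (mul_eq_zero.1 h2).resolve_right hu
  have Wk1 : W 1 0 0 = k := by
    rw [hW]
    unfold Fe
    simp
  have Wkm : W (-1) 0 0 = k⁻¹ := by
    rw [← Wk1, Winv]
    simp
  have WL : ∀ e i g y, W e i g * L y = W e i 0 * L (y + g * n) := by
    intro e i g y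
    have h1 : W 0 0 g = (Fe a b k u1 u2 u3) ^ g := by
      rw [hW, T.zpow]
      congr 1 <;> ring
    have h2 : W e i g = W e i 0 * W 0 0 g := by
      rw [Wmul]
      congr 1 <;> ring
    rw [h2, mul_assoc, h1, hLu]
  have hcan : ∀ e e' i i' y y', W e i 0 * L y = W e' i' 0 * L y' →
      i = i' ∧ y = y' ∧ W (e - e') 0 0 = 1 := by
    intro e e' i i' y y' h
    have h1 : W (-e' + e) (-i' + i) 0 * L y = L y' := by
      have h2 : (W e' i' 0)⁻¹ * (W e i 0 * L y) = L y' := by rw [h, inv_mul_cancel_left]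
      rw [Winv, ← mul_assoc, Wmul] at h2
      rw [← h2]
      congr 2
    rw [hW] at h1
    obtain ⟨d, h3, h4⟩ := hstar _ _ _ _ _ h1
    have h5 : W (-e' + e) (-i' + i) 0 = W 0 0 d := by
      rw [hW, h3, hW, T.zpow]
      congr 1 <;> ring
    have h6 : W (-e' + e) (-i' + i) (-d) = 1 := by
      have h7 : W (-e' + e) (-i' + i) 0 * (W 0 0 d)⁻¹ = 1 := by rw [h5, mul_inv_cancel]
      rw [Winv, Wmul] at h7
      rw [← h7]
      congr 1 <;> ring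
    obtain ⟨h7, h8⟩ := Wkey _ _ _ h6
    have h9 : d = 0 := by omega
    refine ⟨by omega, by rw [h4, h9]; ring, ?_⟩
    rw [← h6, h7, h8]
    congr 1
    ring
  have hB0 : B 0 = L yB0 := by rw [hB, hf0, inv_mul_cancel_left]
  have hB1 : B nb = W 0 1 0 * L yB1 := by
    rw [hB, hfn, T.inv, ← mul_assoc, T.mul, hW, hv1, hv2, hv3]
    congr 2 <;> ring
  have hBa : ∀ s, 0 ≤ s → s < nb → (cay S).Adj (B s) (B (s + 1)) := by
    intro s h1 h2
    rw [hB, hB, cay_left]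
    exact hfa s h1 h2
  have hBi : ∀ s, 0 < s → s < nb → ∀ i j l y, B s ≠ Fe a b k i j l * L y := by
    intro s h1 h2 i j l y h3
    have h4 : f s = Fe a b k (i₁ + i) (j₁ + j) (l₁ + l) * L y := by
      rw [← T.mul, mul_assoc, ← h3, hB, mul_inv_cancel_left]
    obtain ⟨h5, h6⟩ := hfi s h1 h2
    by_cases h7 : u1 * (j₁ + j) - u2 * (i₁ + i) = 0
    · exact h5 ⟨_, _, _, _, h7, h4⟩
    · exact h6 ⟨_, _, _, _, h7, h4⟩
  -- the second bridge
  have hLL : ∀ x, x ∈ {x | ∃ c y, x = W 0 c 0 * L y} → x ∈ {x | ∃ c y, x = W 1 c 0 * L y} →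
      False := by
    rintro x ⟨c, y, rfl⟩ ⟨c', y', h2⟩
    obtain ⟨-, -, h3⟩ := hcan _ _ _ _ _ _ h2
    rw [zero_sub, Wkm, inv_eq_one] at h3
    exact T.k1 h3
  obtain ⟨nq, f', hnq, ⟨c₁, yQ0, hg0⟩, ⟨c₂, yQ1, hgn⟩, hga, hgi⟩ :=
    bridge hG (A := {x | ∃ c y, x = W 0 c 0 * L y}) (B := {x | ∃ c y, x = W 1 c 0 * L y})
      ⟨_, 0, 0, rfl⟩ ⟨_, 0, 0, rfl⟩ hLL
  obtain ⟨Q, hQ⟩ : ∃ Q : ℤ → Γ, ∀ s, Q s = W 0 (-c₁) 0 * f' s := ⟨_, fun s => rfl⟩
  have hQ0 : Q 0 = L yQ0 := by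
    rw [hQ, hg0, ← mul_assoc, Wmul]
    have e : W (0 + 0) (-c₁ + c₁) (0 + 0) = 1 := by
      rw [← W0]; congr 1; ring
    rw [e, one_mul]
  obtain ⟨c₀, hc₀⟩ : ∃ c₀, c₀ = -c₁ + c₂ := ⟨_, rfl⟩
  have hQ1 : Q nq = W 1 c₀ 0 * L yQ1 := by
    rw [hQ, hgn, ← mul_assoc, Wmul, hc₀]
    congr 2
  have hQa : ∀ s, 0 ≤ s → s < nq → (cay S).Adj (Q s) (Q (s + 1)) := by
    intro s h1 h2
    rw [hQ, hQ, cay_left]
    exact hga s h1 h2
  have hQi0 : ∀ s, 0 < s → s < nq → ∀ c y, Q s ≠ W 0 c 0 * L y := by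
    intro s h1 h2 c y h3
    refine (hgi s h1 h2).1 ⟨c₁ + c, y, ?_⟩
    have h4 : W 0 c₁ 0 * Q s = f' s := by
      rw [hQ, ← mul_assoc, Wmul]
      have e : W (0 + 0) (c₁ + -c₁) (0 + 0) = 1 := by
        rw [← W0]; congr 1; ring
      rw [e, one_mul]
    rw [← h4, h3, ← mul_assoc, Wmul]
    congr 2
  have hQi1 : ∀ s, 0 < s → s < nq → ∀ c y, Q s ≠ W 1 c 0 * L y := by
    intro s h1 h2 c y h3
    refine (hgi s h1 h2).2 ⟨c₁ + c, y, ?_⟩
    have h4 : W 0 c₁ 0 * Q s = f' s := by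
      rw [hQ, ← mul_assoc, Wmul]
      have e : W (0 + 0) (c₁ + -c₁) (0 + 0) = 1 := by
        rw [← W0]; congr 1; ring
      rw [e, one_mul]
    rw [← h4, h3, ← mul_assoc, Wmul]
    congr 2
  -- the bound
  obtain ⟨X, hXdef⟩ : ∃ X : Set Γ, X = B '' (Set.Icc 0 nb) ∪ Q '' (Set.Icc 0 nq) := ⟨_, rfl⟩
  have hXf : X.Finite := by
    rw [hXdef]
    exact ((Set.finite_Icc _ _).image _).union ((Set.finite_Icc _ _).image _)
  have hDf : (Set.image2 (fun x y : Γ => x * y⁻¹) X X).Finite := hXf.image2 _ hXf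
  obtain ⟨M₀, hM₀, hMb⟩ : ∃ M₀ : ℤ, 0 < M₀ ∧ ∀ e c g, (e = 0 ∨ e = 1) →
      ∀ x ∈ X, ∀ y ∈ X, W e c g * y = x → |g| < M₀ := by
    have h1 : ∀ e, ∃ M : ℤ, ∀ c g, ∀ x ∈ X, ∀ y ∈ X, W e c g * y = x → |g| ≤ M := by
      intro e
      have h2 : ((fun p : ℤ × ℤ => W e p.1 p.2) ⁻¹'
          (Set.image2 (fun x y : Γ => x * y⁻¹) X X)).Finite := by
        refine hDf.preimage ?_
        rintro ⟨c, g⟩ - ⟨c', g'⟩ - h3
        have h3' : W e c g = W e c' g' := h3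
        have h4 : W 0 (c - c') (g - g') = 1 := by
          have h5 : W e c g * (W e c' g')⁻¹ = 1 := by rw [h3', mul_inv_cancel]
          rw [Winv, Wmul] at h5
          rw [← h5]
          congr 1
          ring
        obtain ⟨h5, h6⟩ := Wkey _ _ _ h4
        have e1 : c = c' := by omega
        have e2 : g = g' := by omega
        rw [e1, e2]
      obtain ⟨M, hM⟩ := (h2.image (fun p : ℤ × ℤ => |p.2|)).bddAbove
      refine ⟨M, fun c g x hx y hy h3 => hM ⟨(c, g), ⟨x, hx, y, hy, ?_⟩, rfl⟩⟩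
      show x * y⁻¹ = W e c g
      rw [← h3, mul_inv_cancel_right]
    obtain ⟨Ma, hMa⟩ := h1 0
    obtain ⟨Mc, hMc⟩ := h1 1
    refine ⟨|Ma| + |Mc| + 1, by positivity, ?_⟩
    intro e c g he x hx y hy h3
    have a1 := le_abs_self Ma
    have a2 := le_abs_self Mc
    have a3 := abs_nonneg Ma
    have a4 := abs_nonneg Mc
    rcases he with rfl | rfl
    · have := hMa c g x hx y hy h3
      omega
    · have := hMc c g x hx y hy h3
      omega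
  obtain ⟨t, ht⟩ : ∃ t : ℤ, t = |yB0| + |yB1| + |yQ0| + |yQ1| := ⟨_, rfl⟩
  have ht0 : 0 ≤ t := by rw [ht]; positivity
  obtain ⟨M, hM⟩ : ∃ M : ℤ, M = M₀ + (2 * t + 1) := ⟨_, rfl⟩
  obtain ⟨N, hN⟩ : ∃ N : ℤ, N = M * n := ⟨_, rfl⟩
  have hMn : (2 * t + 1) * n ≤ M * n := mul_le_mul_of_nonneg_right (by omega) hn.le
  have htn : t * 1 ≤ t * n := mul_le_mul_of_nonneg_left (by omega) ht0
  have hNpos : 0 < N := by
    rw [hN]
    have : (2 * t + 1) * n = 2 * (t * n) + n := by ring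
    omega
  have hwin : ∀ y x : ℤ, |y| ≤ t → N * x ≤ y + (t + M * x) * n ∧ y + (t + M * x) * n < N * x + N := by
    intro y x hy
    rw [abs_le] at hy
    have e1 : (t + M * x) * n = t * n + N * x := by rw [hN]; ring
    have e2 : (2 * t + 1) * n = 2 * (t * n) + n := by ring
    rw [e1]
    rw [← hN] at hMn
    constructor <;> omega
  have b0 : |yB0| ≤ t := by
    have := abs_nonneg yB0; have := abs_nonneg yB1; have := abs_nonneg yQ0
    have := abs_nonneg yQ1; omega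
  have b1 : |yB1| ≤ t := by
    have := abs_nonneg yB0; have := abs_nonneg yB1; have := abs_nonneg yQ0
    have := abs_nonneg yQ1; omega
  have b2 : |yQ0| ≤ t := by
    have := abs_nonneg yB0; have := abs_nonneg yB1; have := abs_nonneg yQ0
    have := abs_nonneg yQ1; omega
  have b3 : |yQ1| ≤ t := by
    have := abs_nonneg yB0; have := abs_nonneg yB1; have := abs_nonneg yQ0
    have := abs_nonneg yQ1; omega
  have hslab : ∀ x x' y : ℤ, N * x ≤ y → y < N * x + N → N * x' ≤ y → y < N * x' + N →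
      x = x' := by
    intro x x' y h1 h2 h3 h4
    have g1 : N * x < N * (x' + 1) := by rw [mul_add, mul_one]; omega
    have g2 : N * x' < N * (x + 1) := by rw [mul_add, mul_one]; omega
    have g3 := lt_of_mul_lt_mul_left g1 hNpos.le
    have g4 := lt_of_mul_lt_mul_left g2 hNpos.le
    omega
  -- the pieces
  let lin : ℤ → ℤ → ℤ → Set Γ := fun e i x =>
    {z | ∃ y, (N * x ≤ y ∧ y < N * x + N) ∧ W e i 0 * L y = z}
  let Bs : ℤ → ℤ → Set Γ := fun i x =>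
    {z | ∃ s, (0 ≤ s ∧ s ≤ nb) ∧ W 1 i (t + M * x) * B s = z}
  let Qs : ℤ → ℤ → Set Γ := fun i x =>
    {z | ∃ s, (1 ≤ s ∧ s ≤ nq) ∧ W 0 i (t + M * x) * Q s = z}
  let Tc : ℤ → Set Γ := fun x =>
    {z | z ∈ {z | ∃ i, z ∈ lin 1 i x ∪ Bs i x} ∨ ∃ i, z ∈ Qs i x}
  have hlin : ∀ e i x, Conn (cay S) (lin e i x) := by
    intro e i x
    refine conn_line (fun y : ℤ => W e i 0 * L y) (fun y => N * x ≤ y ∧ y < N * x + N) (N * x)
      ⟨le_refl _, by omega⟩ ?_ ?_ (fun y _ _ => (cay_left S _ _ _).2 (hLadj y))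
    · rintro y hy ⟨h1, h2⟩
      exact ⟨hy, by omega⟩
    · rintro y hy ⟨h1, h2⟩
      exact ⟨by omega, by omega⟩
  have hBs : ∀ i x, Conn (cay S) (Bs i x) := by
    intro i x
    refine conn_line (fun s : ℤ => W 1 i (t + M * x) * B s) (fun s => 0 ≤ s ∧ s ≤ nb) 0
      ⟨le_refl _, by omega⟩ ?_ ?_ (fun s h1 h2 => (cay_left S _ _ _).2 (hBa s h1.1 (by omega)))
    · rintro y hy ⟨h1, h2⟩
      exact ⟨hy, by omega⟩
    · rintro y hy ⟨h1, h2⟩
      exact ⟨by omega, by omega⟩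
  have hQs : ∀ i x, Conn (cay S) (Qs i x) := by
    intro i x
    refine conn_line (fun s : ℤ => W 0 i (t + M * x) * Q s) (fun s => 1 ≤ s ∧ s ≤ nq) 1
      ⟨le_refl _, by omega⟩ ?_ ?_ (fun s h1 h2 => (cay_left S _ _ _).2 (hQa s (by omega) (by omega)))
    · rintro y hy ⟨h1, h2⟩
      exact ⟨hy, by omega⟩
    · rintro y hy ⟨h1, h2⟩
      exact ⟨by omega, by omega⟩
  have hBz : ∀ i x, W 1 i (t + M * x) * B 0 ∈ lin 1 i x := by
    intro i x
    rw [hB0, WL]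
    exact ⟨_, hwin _ _ b0, rfl⟩
  have hBn : ∀ i x, W 1 i (t + M * x) * B nb ∈ lin 1 (i + 1) x := by
    intro i x
    rw [hB1, ← mul_assoc, Wmul, add_zero, add_zero, WL]
    exact ⟨_, hwin _ _ b1, rfl⟩
  have hQn : ∀ i x, W 0 i (t + M * x) * Q nq ∈ lin 1 (i + c₀) x := by
    intro i x
    rw [hQ1, ← mul_assoc, Wmul, add_zero, zero_add, WL]
    exact ⟨_, hwin _ _ b3, rfl⟩
  have hTc : ∀ x, Conn (cay S) (Tc x) := by
    intro x
    refine conn_starm (fun i => Qs i x) (conn_chainZ (fun i => lin 1 i x ∪ Bs i x) ?_ ?_)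
      (fun i => hQs i x) ?_
    · intro i
      exact conn_meet (hlin 1 i x) (hBs i x) (hBz i x) ⟨0, ⟨le_refl _, hnb.le⟩, rfl⟩
    · intro i
      exact ⟨_, Or.inr ⟨nb, ⟨hnb.le, le_refl _⟩, rfl⟩, Or.inl (hBn i x)⟩
    · intro i
      exact ⟨W 0 i (t + M * x) * Q nq, ⟨i + c₀, Or.inl (hQn i x)⟩,
        ⟨nq, ⟨by omega, le_refl _⟩, rfl⟩⟩
  -- the three kinds of elements of the centres
  have hkind : ∀ x z, z ∈ Tc x → (∃ i, z ∈ lin 1 i x) ∨
      (∃ i s, (0 < s ∧ s < nb) ∧ W 1 i (t + M * x) * B s = z) ∨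
      (∃ i s, (0 < s ∧ s < nq) ∧ W 0 i (t + M * x) * Q s = z) := by
    rintro x z (⟨i, h | ⟨s, ⟨h1, h2⟩, rfl⟩⟩ | ⟨i, s, ⟨h1, h2⟩, rfl⟩)
    · exact Or.inl ⟨i, h⟩
    · rcases lt_trichotomy s 0 with h3 | h3 | h3
      · omega
      · rw [h3]
        exact Or.inl ⟨i, hBz i x⟩
      · rcases lt_or_eq_of_le h2 with h4 | h4
        · exact Or.inr (Or.inl ⟨i, s, ⟨h3, h4⟩, rfl⟩)
        · rw [h4]
          exact Or.inl ⟨i + 1, hBn i x⟩
    · rcases lt_or_eq_of_le h2 with h4 | h4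
      · exact Or.inr (Or.inr ⟨i, s, ⟨by omega, h4⟩, rfl⟩)
      · rw [h4]
        exact Or.inl ⟨i + c₀, hQn i x⟩
  have hmv : ∀ {e i g e' i' g' : ℤ} {p q : Γ}, W e i g * p = W e' i' g' * q →
      W (e - e') (i - i') (g - g') * p = q := by
    intro e i g e' i' g' p q h
    have h1 : (W e' i' g')⁻¹ * (W e i g * p) = q := by rw [h, inv_mul_cancel_left]
    rw [Winv, ← mul_assoc, Wmul] at h1
    rw [← h1]
    congr 2 <;> ring
  have hWFe : ∀ e i g y, ∃ i' j' l', W e i g * L y = Fe a b k i' j' l' * L y := by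
    intro e i g y
    exact ⟨_, _, _, by rw [hW]⟩
  have hBX : ∀ s, 0 < s → s < nb → B s ∈ X := by
    intro s h1 h2
    rw [hXdef]
    exact Or.inl ⟨s, ⟨h1.le, h2.le⟩, rfl⟩
  have hQX : ∀ s, 0 < s → s < nq → Q s ∈ X := by
    intro s h1 h2
    rw [hXdef]
    exact Or.inr ⟨s, ⟨h1.le, h2.le⟩, rfl⟩
  have hBl : ∀ e i g s e' i' y, 0 < s → s < nb → W e i g * B s ≠ W e' i' 0 * L y := by
    intro e i g s e' i' y h1 h2 h3
    have h4 := hmv h3.symm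
    obtain ⟨p, q, r, h5⟩ := hWFe (e' - e) (i' - i) (0 - g) y
    exact hBi s h1 h2 p q r y (h4.symm.trans h5)
  have hQl : ∀ i g s e' i' y, (e' = 0 ∨ e' = 1) → 0 < s → s < nq →
      W 0 i g * Q s ≠ W e' i' 0 * L y := by
    intro i g s e' i' y he h1 h2 h3
    have h4 := hmv h3.symm
    rw [WL] at h4
    rcases he with rfl | rfl
    · exact hQi0 s h1 h2 _ _ h4.symm
    · exact hQi1 s h1 h2 _ _ h4.symm
  have hxx : ∀ x x' : ℤ, |(t + M * x) - (t + M * x')| < M₀ → x = x' := by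
    intro x x' h
    have e1 : (t + M * x) - (t + M * x') = M * (x - x') := by ring
    rw [e1, abs_mul, abs_of_pos (by omega : 0 < M)] at h
    by_contra hne
    have h1 : 1 ≤ |x - x'| := Int.one_le_abs (by omega)
    have h2 : M * 1 ≤ M * |x - x'| := mul_le_mul_of_nonneg_left h1 (by omega)
    omega
  have hTT : ∀ x x' z, z ∈ Tc x → z ∈ Tc x' → x = x' := by
    intro x x' z h1 h2
    rcases hkind x z h1 with ⟨i, y, ⟨g1, g2⟩, rfl⟩ | ⟨i, s, ⟨g1, g2⟩, rfl⟩ | ⟨i, s, ⟨g1, g2⟩, rfl⟩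
    · rcases hkind x' _ h2 with ⟨i', y', ⟨g3, g4⟩, h⟩ | ⟨i', s', ⟨g3, g4⟩, h⟩ |
        ⟨i', s', ⟨g3, g4⟩, h⟩
      · obtain ⟨-, h5, -⟩ := hcan _ _ _ _ _ _ h
        subst h5
        exact (hslab _ _ _ g3 g4 g1 g2).symm
      · exact absurd h (hBl _ _ _ _ _ _ _ g3 g4)
      · exact absurd h (hQl _ _ _ _ _ _ (Or.inr rfl) g3 g4)
    · rcases hkind x' _ h2 with ⟨i', y', ⟨g3, g4⟩, h⟩ | ⟨i', s', ⟨g3, g4⟩, h⟩ |
        ⟨i', s', ⟨g3, g4⟩, h⟩
      · exact absurd h.symm (hBl _ _ _ _ _ _ _ g1 g2)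
      · have h5 := hmv h
        exact (hxx _ _ (hMb _ _ _ (Or.inl (by ring)) _ (hBX s g1 g2) _ (hBX s' g3 g4) h5)).symm
      · have h5 := hmv h.symm
        exact hxx _ _ (hMb _ _ _ (Or.inr (by ring)) _ (hQX s' g3 g4) _ (hBX s g1 g2) h5)
    · rcases hkind x' _ h2 with ⟨i', y', ⟨g3, g4⟩, h⟩ | ⟨i', s', ⟨g3, g4⟩, h⟩ |
        ⟨i', s', ⟨g3, g4⟩, h⟩
      · exact absurd h.symm (hQl _ _ _ _ _ _ (Or.inr rfl) g1 g2)
      · have h5 := hmv h
        exact (hxx _ _ (hMb _ _ _ (Or.inr (by ring)) _ (hQX s g1 g2) _ (hBX s' g3 g4) h5)).symm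
      · have h5 := hmv h
        exact (hxx _ _ (hMb _ _ _ (Or.inl (by ring)) _ (hQX s g1 g2) _ (hQX s' g3 g4) h5)).symm
  have hTl : ∀ x x' i z, z ∈ Tc x → z ∈ lin 0 i x' → False := by
    intro x x' i z h1 ⟨y, ⟨g3, g4⟩, h⟩
    rcases hkind x z h1 with ⟨i', y', ⟨g1, g2⟩, rfl⟩ | ⟨i', s, ⟨g1, g2⟩, rfl⟩ |
      ⟨i', s, ⟨g1, g2⟩, rfl⟩
    · obtain ⟨-, -, h5⟩ := hcan _ _ _ _ _ _ h
      rw [zero_sub, Wkm, inv_eq_one] at h5
      exact T.k1 h5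
    · exact hBl _ _ _ _ _ _ _ g1 g2 h.symm
    · exact hQl _ _ _ _ _ _ (Or.inl rfl) g1 g2 h.symm
  have hll : ∀ x x' i i' z, z ∈ lin 0 i x → z ∈ lin 0 i' x' → x = x' ∧ i = i' := by
    rintro x x' i i' z ⟨y, ⟨g1, g2⟩, rfl⟩ ⟨y', ⟨g3, g4⟩, h⟩
    obtain ⟨h4, h5, -⟩ := hcan _ _ _ _ _ _ h
    subst h5
    exact ⟨hslab _ _ _ g1 g2 g3 g4, h4.symm⟩
  refine ⟨fun w => match w.2 with
    | none => Tc w.1
    | some i => lin 0 (i : ℤ) w.1, ?_, ?_, ?_⟩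
  · rintro ⟨x, _ | i⟩
    · exact hTc x
    · exact hlin 0 i x
  · rintro ⟨x, _ | i⟩ ⟨x', _ | j⟩ z h1 h2
    · rw [hTT x x' z h1 h2]
    · exact (hTl x x' j z h1 h2).elim
    · exact (hTl x' x i z h2 h1).elim
    · obtain ⟨h3, h4⟩ := hll x x' i j z h1 h2
      have h5 : i = j := by exact_mod_cast h4
      rw [h3, h5]
  · have lls : ∀ e i x, ∃ p ∈ lin e i x, ∃ q ∈ lin e i (x + 1), (cay S).Adj p q := by
      intro e i x
      refine ⟨W e i 0 * L (N * x + N - 1), ⟨_, ⟨by omega, by omega⟩, rfl⟩,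
        W e i 0 * L (N * x + N - 1 + 1), ⟨_, ⟨?_, ?_⟩, rfl⟩, (cay_left S _ _ _).2 (hLadj _)⟩
      · rw [mul_add, mul_one]; omega
      · rw [mul_add, mul_one]; omega
    have ln : ∀ (x : ℤ) (o : Option ℕ),
        ∃ p ∈ (match o with | none => Tc x | some i => lin 0 (i : ℤ) x),
        ∃ q ∈ (match o with | none => Tc (x + 1) | some i => lin 0 (i : ℤ) (x + 1)),
        (cay S).Adj p q := by
      rintro x (_ | i)
      · obtain ⟨p, hp, q, hq, hpq⟩ := lls 1 0 x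
        exact ⟨p, Or.inl ⟨0, Or.inl hp⟩, q, Or.inl ⟨0, Or.inl hq⟩, hpq⟩
      · exact lls 0 i x
    have sp : ∀ (x : ℤ) (i : ℕ), ∃ p ∈ Tc x, ∃ q ∈ lin 0 (i : ℤ) x, (cay S).Adj p q := by
      intro x i
      refine ⟨W 0 i (t + M * x) * Q (0 + 1), Or.inr ⟨i, 0 + 1, ⟨by omega, by omega⟩, rfl⟩,
        W 0 i (t + M * x) * Q 0, ?_, ((cay_left S _ _ _).2 (hQa 0 (le_refl _) hnq)).symm⟩
      rw [hQ0, WL]
      exact ⟨_, hwin _ _ b2, rfl⟩
    rintro ⟨x, o⟩ ⟨x', o'⟩ hadj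
    unfold StarZ at hadj
    rw [SimpleGraph.fromRel_adj] at hadj
    obtain ⟨hne, (⟨h1, h2⟩ | ⟨h1, h2⟩) | (⟨h1, h2⟩ | ⟨h1, h2⟩)⟩ := hadj
    · simp only at h1 h2
      subst h1 h2
      exact ln x o
    · simp only at h1 h2
      subst h1 h2
      rcases o' with _ | i
      · exact absurd rfl hne
      · exact sp x i
    · simp only at h1 h2
      subst h1 h2
      obtain ⟨p, hp, q, hq, hpq⟩ := ln x' o'
      exact ⟨q, hq, p, hp, hpq.symm⟩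
    · simp only at h1 h2
      subst h1 h2
      rcases o with _ | i
      · exact absurd rfl hne
      · obtain ⟨p, hp, q, hq, hpq⟩ := sp x' i
        exact ⟨q, hq, p, hp, hpq.symm⟩

/-- Every Cayley graph of a group which contains `ℤ² × C`, `C ≠ 1` cyclic, contains every countable
graph as a minor. -/
theorem zp {Γ : Type u} [Group Γ] {a b k : Γ} (T : Tri a b k) {S : Set Γ} (hS : IsGen S) :
    Mn (⊤ : SimpleGraph ℕ) (cay S) :=
  complete_of_starZ.trans (zp_star T hS)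

end Pool.Agent.Helper54.NW
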